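import Pool.Agent.H23.NVK.MDefs

/-!
# The mollifier over an abstract semigroup of ideals: targets (board nvk_modules, letters M_..)
-/

set_option autoImplicit false

open MeasureTheory Set Filter
open scoped Real

namespace Pool.Agent.H23.NVK

open Pool.Agent.H31.CN (GR E lin mo al et Mf Fi Mt)

/-! ### The monoid -/

/-- (CVP) the convolution of multiplicative functions. -/
def T_CVP : Prop :=
  ∀ (α : Type) (f g : α → ℕ → ℝ), (∀ p, f p 0 = 1) → (∀ p, g p 0 = 1) → ∀ n : α →₀ ℕ,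
    cv (fun a => a.prod f) (fun b => b.prod g) n =
      n.prod (fun p k => ∑ i ∈ Finset.HasAntidiagonal.antidiagonal k, f p i.1 * g p i.2)

open Classical in
/-- (CVI) the convolution identities of the Möbius function. -/
def T_CVI : Prop :=
  ∀ (α : Type),
    (∀ n : α →₀ ℕ, cv mr (fun _ => 1) n = if n = 0 then 1 else 0) ∧
    (∀ n : α →₀ ℕ, cv mr mr n = m2 n) ∧
    (∀ (q : Finset α) (n : α →₀ ℕ), cv m2 (hq q) n = u2 q n) ∧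
    (∀ (S : Finset α), mr (ind S) = (-1) ^ S.card) ∧
    (∀ n : α →₀ ℕ, ¬ (∀ p, n p ≤ 1) → mr n = 0) ∧ (∀ n : α →₀ ℕ, |mr n| ≤ 1)

/-- (EUL) Euler products. -/
def T_EUL : Prop :=
  ∀ (α : Type) (f : α → ℕ → ℝ), (∀ p, f p 0 = 1) →
    Summable (fun x : α × ℕ => |f x.1 (x.2 + 1)|) →
    Summable (fun n : α →₀ ℕ => |n.prod f|) ∧
    Multipliable (fun p : α => ∑' k : ℕ, f p k) ∧
    ∑' n : α →₀ ℕ, n.prod f = ∏' p : α, ∑' k : ℕ, f p k ∧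
    ∑' n : α →₀ ℕ, |n.prod f| = ∏' p : α, ∑' k : ℕ, |f p k|

/-- (SUM) convergence, and bounds for partial sums. -/
def T_SUM : Prop :=
  ∀ (α : Type) (N : α → ℕ) (ρ δ : ℝ), AxA N ρ δ →
    (∀ s : ℝ, 1 < s → Summable (fun n : α →₀ ℕ => (nF N n : ℝ) ^ (-s))) ∧
    (∀ (s : ℝ) (j : ℕ), 1 < s → Summable (fun p : α => Real.log (N p) ^ j * (N p : ℝ) ^ (-s))) ∧
    (∀ s : ℝ, s < 1 → ∃ C : ℝ, 0 < C ∧ ∀ y : ℝ, 1 ≤ y →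
      ∑ n ∈ FM N y, (nF N n : ℝ) ^ (-s) ≤ C * y ^ (1 - s)) ∧
    (∃ C : ℝ, 0 < C ∧ ∀ y : ℝ, 1 ≤ y → ∑ n ∈ FM N y, 1 / (nF N n : ℝ) ≤ C * (1 + Real.log y))

/-- (EXP) the expansion of the sums of `log(y / n) ^ k / n`. -/
def T_EXP : Prop :=
  ∀ (α : Type) (N : α → ℕ) (ρ δ : ℝ), AxA N ρ δ → ∀ k : ℕ, ∃ (c : ℕ → ℝ) (C : ℝ), 0 < C ∧
    ∀ y : ℝ, 1 ≤ y → |Lam N (fun _ => 1) (lg k) y - (ρ * lg (k + 1) y / (k + 1) +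
      ∑ j ∈ Finset.range (k + 1), c j * lg j y)| ≤ C * y ^ (-δ)

/-- (MU0) the first two sums of the Möbius function. -/
def T_MU0 : Prop :=
  ∀ (α : Type) (N : α → ℕ) (ρ δ : ℝ), AxA N ρ δ → ∃ C : ℝ, 0 < C ∧ ∀ y : ℝ, 1 ≤ y →
    |Lam N mr (lg 0) y| ≤ C ∧ |Lam N mr (lg 1) y| ≤ C

/-- (MU1) smoothed sums of the Möbius function. -/
def T_MU1 : Prop :=
  ∀ (α : Type) (N : α → ℕ) (ρ δ : ℝ), AxA N ρ δ → ∀ k : ℕ, 2 ≤ k →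
    ∃ C : ℝ, 0 < C ∧ ∀ y : ℝ, 1 ≤ y →
      |Lam N mr (lg k) y - k / ρ * lg (k - 1) y| ≤ C * (1 + Real.log y) ^ (k - 2)

/-- (MU2) smoothed sums of the convolution square. -/
def T_MU2 : Prop :=
  ∀ (α : Type) (N : α → ℕ) (ρ δ : ℝ), AxA N ρ δ → ∀ k : ℕ, 5 ≤ k →
    ∃ C : ℝ, 0 < C ∧ ∀ y : ℝ, 1 ≤ y →
      |Lam N m2 (lg k) y - k * (k - 1) / ρ ^ 2 * lg (k - 2) y| ≤ C * (1 + Real.log y) ^ (k - 3)

section D1

variable {α : Type} (N : α → ℕ)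

open Classical in
/-- the singular factor -/
noncomputable def Hq (q : Finset α) : ℝ :=
  ∏' p : α, if p ∈ q then (1 - 1 / (N p : ℝ))⁻¹ ^ 2 else
    (1 - 2 / (N p : ℝ)) * (1 - 1 / (N p : ℝ))⁻¹ ^ 2

/-- the error factor -/
noncomputable def Ef (q : Finset α) : ℝ := ∏ p ∈ q, (1 + 30 / Real.sqrt (N p))

open Classical in
/-- the smoothed sum -/
noncomputable def Bk (k : ℕ) (q : Finset α) (y : ℝ) : ℝ :=
  ∑ S ∈ (SM N y).filter (fun S => Disjoint S q),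
    (-2) ^ S.card / (nS N S : ℝ) * Real.log (y / nS N S) ^ k

/-- the sum of the squares of the logarithms of the norms of the primes -/
noncomputable def ve (S : Finset α) : ℝ := ∑ p ∈ S, Real.log (N p) ^ 2

end D1

/-- (HQ) the singular factor. -/
def T_HQ : Prop :=
  ∀ (α : Type) (N : α → ℕ) (ρ δ : ℝ), AxA N ρ δ →
    ∃ C : ℝ, 0 < C ∧ ∀ q : Finset α, Ad N q →
      0 < Hq N q ∧ Hq N q ≤ C * Ef N q ∧
      (∀ (p : α) (s : Finset α), p ∉ q → (∀ x, x ∈ s ↔ x = p ∨ x ∈ q) →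
        Hq N s * (1 - 2 / (N p : ℝ)) = Hq N q) ∧
      Summable (fun b : α →₀ ℕ => |hq q b| * (nF N b : ℝ) ^ (-(3 / 4) : ℝ)) ∧
      ∑' b : α →₀ ℕ, |hq q b| * (nF N b : ℝ) ^ (-(3 / 4) : ℝ) ≤ C * Ef N q ∧
      ∑' b : α →₀ ℕ, hq q b / nF N b = Hq N q

/-- (BK) the smoothed sum with coprimality. -/
def T_BK : Prop :=
  ∀ (α : Type) (N : α → ℕ) (ρ δ : ℝ), AxA N ρ δ → ∀ k : ℕ, 5 ≤ k →
    ∃ C : ℝ, 0 < C ∧ ∀ (q : Finset α) (y : ℝ), Ad N q → 1 ≤ y →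
      |Bk N k q y - Hq N q * (k * (k - 1) / ρ ^ 2) * Real.log y ^ (k - 2)| ≤
        C * Ef N q * (1 + Real.log y) ^ (k - 3)

/-- (MRT) Mertens' theorem for the primes, upper bounds. -/
def T_MRT : Prop :=
  ∀ (α : Type) (N : α → ℕ) (ρ δ : ℝ), AxA N ρ δ → ∃ C : ℝ, 0 < C ∧ ∀ y : ℝ, 1 ≤ y →
    |∑ p ∈ PM N y, Real.log (N p) / N p - Real.log y| ≤ C ∧
    ∏ p ∈ PM N y, (1 + 1 / (N p : ℝ)) ≤ C * (1 + Real.log y)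

/-- (MER) Mertens sums. -/
def T_MER : Prop :=
  ∀ (α : Type) (N : α → ℕ) (ρ δ : ℝ), AxA N ρ δ → ∀ j : ℕ, ∃ C : ℝ, 0 < C ∧ ∀ y : ℝ, 1 ≤ y →
    |∑ p ∈ PM N y, Real.log (N p) ^ 2 / N p * Real.log (y / N p) ^ j -
      Real.log y ^ (j + 2) / ((j + 1) * (j + 2))| ≤ C * (1 + Real.log y) ^ (j + 1)

open Classical in
/-- (VS) the smoothed sum with the sum of squares of logarithms. -/
def T_VS : Prop :=
  ∀ (α : Type) (N : α → ℕ) (ρ δ : ℝ), AxA N ρ δ → ∀ k : ℕ, 5 ≤ k →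
    ∃ C : ℝ, 0 < C ∧ ∀ (q : Finset α) (y : ℝ), Ad N q → 1 ≤ y →
      |∑ S ∈ (SM N y).filter (fun S => Disjoint S q),
          (-2) ^ S.card / (nS N S : ℝ) * ve N S * Real.log (y / nS N S) ^ k +
        2 / ρ ^ 2 * Hq N q * Real.log y ^ k| ≤ C * Ef N q ^ 2 * (1 + Real.log y) ^ (k - 1)

section D2

variable {α : Type} (N : α → ℕ)

open Classical in
/-- the element of a pair of squarefree ideals -/
noncomputable def ka (S₁ S₂ : Finset α) : GR :=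
  ∏ p ∈ S₁ ∪ S₂, if p ∈ S₁ ∧ p ∈ S₂ then et (N p) + al (N p) ^ 2 else al (N p)

open Classical in
/-- the mollifier coefficients -/
noncomputable def cm (P : Polynomial ℝ) (M : ℝ) (R S : Finset α) : ℝ :=
  if (nS N S : ℝ) ≤ M ∧ Disjoint S R then
    (-1) ^ S.card * P.eval (Real.log (M / nS N S) / Real.log M) else 0

open Classical in
/-- the mollifier sum in the group ring -/
noncomputable def Bd (P : Polynomial ℝ) (M : ℝ) (R d : Finset α) : GR :=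
  ∑ S ∈ (SM N M).filter (fun S => Disjoint S d), cm N P M R (d ∪ S) • ∏ p ∈ S, al (N p)

/-- the local density of the diagonal -/
noncomputable def gd (d : Finset α) : ℝ := ∏ p ∈ d, (1 / (N p : ℝ) - 1 / (N p : ℝ) ^ 3)

open Classical in
/-- the singular constant -/
noncomputable def Sg (R : Finset α) : ℝ :=
  Hq N R ^ 2 * ∏' p : α, if p ∈ R then 1 - 1 / (N p : ℝ) else
    (1 - 1 / (N p : ℝ)) * (1 + 1 / (N p : ℝ) * (1 - 1 / (N p : ℝ) ^ 2) /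
      (1 - 2 / (N p : ℝ)) ^ 2)

end D2

open Classical in
/-- (CNV) the quadratic form is diagonal up to coprimality. -/
def T_CNV : Prop :=
  ∀ (α : Type) (N : α → ℕ) (ρ δ : ℝ), AxA N ρ δ → ∀ (y : ℝ) (c : Finset α → ℝ),
    (∀ S, S ∉ SM N y → c S = 0) →
    ∑ S₁ ∈ SM N y, ∑ S₂ ∈ SM N y, (c S₁ * c S₂) • ka N S₁ S₂ =
      ∑ d ∈ SM N y, (∏ p ∈ d, et (N p)) *
        (∑ S ∈ (SM N y).filter (fun S => Disjoint S d), c (d ∪ S) • ∏ p ∈ S, al (N p)) ^ 2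

/-- (BDM) the moments of the mollifier sums. -/
def T_BDM : Prop :=
  ∀ (α : Type) (N : α → ℕ), (∀ p, 1 ≤ N p) → ∀ (s : Finset (Finset α)) (c : Finset α → ℝ)
    (B : GR) (b : Finset α → ℝ), B = ∑ S ∈ s, c S • ∏ p ∈ S, al (N p) →
    b = (fun S => c S * 2 ^ S.card / nS N S) →
    mo 0 0 B = ∑ S ∈ s, b S ∧
    mo 1 0 B = 1 / 2 * ∑ S ∈ s, b S * Real.log (nS N S) ∧
    mo 0 1 B = 1 / 2 * ∑ S ∈ s, b S * Real.log (nS N S) ∧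
    mo 1 1 B = 1 / 4 * ∑ S ∈ s, b S * (Real.log (nS N S) ^ 2 - ve N S) ∧
    mo 2 0 B = 1 / 4 * ∑ S ∈ s, b S * (Real.log (nS N S) ^ 2 + ve N S) ∧
    mo 0 2 B = 1 / 4 * ∑ S ∈ s, b S * (Real.log (nS N S) ^ 2 + ve N S) ∧
    mo 3 0 B = 1 / 8 * ∑ S ∈ s, b S * (Real.log (nS N S) ^ 3 + 3 * ve N S * Real.log (nS N S)) ∧
    mo 0 3 B = 1 / 8 * ∑ S ∈ s, b S * (Real.log (nS N S) ^ 3 + 3 * ve N S * Real.log (nS N S)) ∧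
    mo 2 1 B = 1 / 8 * ∑ S ∈ s, b S * (Real.log (nS N S) ^ 3 - ve N S * Real.log (nS N S)) ∧
    mo 1 2 B = 1 / 8 * ∑ S ∈ s, b S * (Real.log (nS N S) ^ 3 - ve N S * Real.log (nS N S))

open Classical in
/-- (BAS) the moments of the mollifier sums, asymptotically. -/
def T_BAS : Prop :=
  ∀ (α : Type) (N : α → ℕ) (ρ δ : ℝ), AxA N ρ δ → ∀ (P : Polynomial ℝ) (R : Finset α),
    Polynomial.X ^ 5 ∣ P → Ad N R →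
    ∃ C : ℝ, 0 < C ∧ ∀ (M : ℝ) (d : Finset α) (i j : ℕ), 2 ≤ M → (nS N d : ℝ) ≤ M →
      Disjoint d R → i + j ≤ 3 →
      |mo i j (Bd N P M R d) - (-1) ^ d.card * (Hq N (d ∪ R) / ρ ^ 2) *
        Real.log M ^ ((i : ℤ) + j - 2) * Mf P i j (Real.log (M / nS N d) / Real.log M)| ≤
        C * Ef N d ^ 2 * Real.log M ^ ((i : ℤ) + j - 3)

open Classical in
/-- (DSU) the sum over the diagonal. -/
def T_DSU : Prop :=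
  ∀ (α : Type) (N : α → ℕ) (ρ δ : ℝ), AxA N ρ δ → ∀ (R : Finset α) (F : Polynomial ℝ),
    Ad N R → ∃ C : ℝ, 0 < C ∧ ∀ M : ℝ, 2 ≤ M →
      |∑ d ∈ (SM N M).filter (fun d => Disjoint d R),
          gd N d * Hq N (d ∪ R) ^ 2 * F.eval (Real.log (M / nS N d) / Real.log M) -
        Sg N R * ρ * Real.log M * ∫ t in (0 : ℝ)..1, F.eval t| ≤ C

/-- (DSE) the sum of the error factors. -/
def T_DSE : Prop :=
  ∀ (α : Type) (N : α → ℕ) (ρ δ : ℝ), AxA N ρ δ →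
    ∃ C : ℝ, 0 < C ∧ ∀ M : ℝ, 2 ≤ M → ∑ d ∈ SM N M, Ef N d ^ 8 / nS N d ≤ C * Real.log M

/-- (ETM) the moments of the diagonal element. -/
def T_ETM : Prop :=
  ∀ (α : Type) (N : α → ℕ) (ρ δ : ℝ), AxA N ρ δ →
    ∃ C : ℝ, 0 < C ∧ ∀ d : Finset α, mo 0 0 (∏ p ∈ d, et (N p)) = gd N d ∧
      ∀ i j, i + j ≤ 3 → |mo i j (∏ p ∈ d, et (N p))| ≤ C / nS N d

/-- (PER) the error functional is negligible. -/
def T_PER : Prop :=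
  ∀ (α : Type) (N : α → ℕ) (ρ δ : ℝ), AxA N ρ δ →
    ∀ (N₀ : GR) (P : Polynomial ℝ) (R : Finset α) (θ L₀ C₀ c ε : ℝ) (f : ℝ → ℝ × ℝ → ℝ),
    0 < θ → θ < 1 / 4 → 0 < c → 0 < ε →
    (∀ lam v, v.2 ≤ lam → |f lam v| ≤ C₀ * (1 + |lam| + |v.1| + |v.2|) ^ 2 *
      Real.exp (-(c * (lam - v.2)))) →
    ∃ X₀ : ℝ, ∀ X lam : ℝ, X₀ ≤ X → |lam - 1 / 2 * Real.log X| ≤ L₀ →
      |lin (f lam) (N₀ * ∑ S₁ ∈ SM N (X ^ θ), ∑ S₂ ∈ SM N (X ^ θ),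
        (cm N P (X ^ θ) R S₁ * cm N P (X ^ θ) R S₂) • ka N S₁ S₂)| ≤ ε

/-! ### The cut-off function -/

/-- the conditions on the cut-off function -/
structure VC (V : ℝ → ℝ) : Prop where
  one : ∃ C : ℝ, 0 < C ∧ ∀ x : ℝ, 0 < x → |V x - 1| ≤ C * x
  dec : ∀ j : ℕ, ∃ C : ℝ, 0 < C ∧ ∀ x : ℝ, 0 < x → |V x| ≤ C / (1 + x) ^ j
  der : ∀ j : ℕ, ∃ C : ℝ, 0 < C ∧ ∀ x : ℝ, 0 < x →
    DifferentiableAt ℝ V x ∧ |deriv V x| ≤ C / (1 + x) ^ j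
  cont : ContinuousOn (deriv V) (Ioi 0)

section D3

variable {α : Type} (N : α → ℕ)

/-- the first basic sum -/
noncomputable def S0 (V : ℝ → ℝ) (Y : ℝ) : ℝ :=
  ∑' x : (α →₀ ℕ) × (α →₀ ℕ), V ((nF N x.1 : ℝ) ^ 2 * nF N x.2 * Real.exp (-Y)) /
    ((nF N x.1 : ℝ) * nF N x.2)

/-- the second basic sum -/
noncomputable def S1 (V : ℝ → ℝ) (Y : ℝ) : ℝ :=
  ∑' x : (α →₀ ℕ) × (α →₀ ℕ), V ((nF N x.1 : ℝ) ^ 2 * nF N x.2 * Real.exp (-Y)) *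
    Real.log (nF N x.2) / ((nF N x.1 : ℝ) * nF N x.2)

/-- the basic function of the two logarithmic variables -/
noncomputable def SS (V : ℝ → ℝ) (c u v : ℝ) : ℝ := (u + c) * S0 N V v - S1 N V v

/-- the main term functional -/
noncomputable def Ph (V : ℝ → ℝ) (c l : ℝ) : GR →ₗ[ℝ] ℝ :=
  lin (fun v => SS N V c (l - v.1) (l - v.2))

open Classical in
/-- the averaged local weight of a pair of squarefree ideals -/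
noncomputable def Nb (S₁ S₂ : Finset α) (A e : α →₀ ℕ) : ℝ :=
  ∏ p ∈ S₁ ∪ S₂,
    (if p ∈ S₁ ∧ p ∈ S₂ then
      ((if 2 ≤ A p then 1 else 0) + (if 1 ≤ A p ∧ 1 ≤ e p then 2 - 1 / (N p : ℝ) else 0) +
        (if 1 ≤ e p then 1 else 0) + (if 2 ≤ e p then 1 else 0) : ℝ)
    else ((if 1 ≤ A p then 1 else 0) + (if 1 ≤ e p then 1 else 0) : ℝ))

/-- the main term for fixed discriminant of norm `D` -/
noncomputable def Mn (V : ℝ → ℝ) (c ν : ℝ) (S₁ S₂ : Finset α)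
    (w : (α →₀ ℕ) → (α →₀ ℕ) → ℝ) (D : ℝ) : ℝ :=
  ∑' x : (α →₀ ℕ) × (α →₀ ℕ), V ((nF N x.1 : ℝ) ^ 2 * nF N x.2 /
      (ν * nS N S₁ * nS N S₂ * Real.sqrt D)) / Real.sqrt ((nF N x.1 : ℝ) ^ 2 * nF N x.2) *
    w x.1 x.2 * Nb N S₁ S₂ x.2 x.1 *
      ((Real.log (Real.sqrt D / nF N x.2) + c) / Real.sqrt (nF N x.2))

/-- the polynomial in the two logarithmic variables -/
noncomputable def PPr (ρ c a₁ a₀ b₂ b₁ b₀ u v : ℝ) : ℝ :=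
  (u + c) * (ρ ^ 2 * v ^ 2 / 4 + a₁ * v + a₀) -
    (ρ ^ 2 * v ^ 3 / 12 + b₂ * v ^ 2 + b₁ * v + b₀)

end D3

/-- (SSA) asymptotic expansion of the basic sums. -/
def T_SSA : Prop :=
  ∀ (α : Type) (N : α → ℕ) (ρ δ : ℝ) (V : ℝ → ℝ), AxA N ρ δ → VC V →
  (∀ Y : ℝ, Summable (fun x : (α →₀ ℕ) × (α →₀ ℕ) =>
      |V ((nF N x.1 : ℝ) ^ 2 * nF N x.2 * Real.exp (-Y)) * (1 + Real.log (nF N x.2)) /
        ((nF N x.1 : ℝ) * nF N x.2)|)) ∧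
  (Continuous (S0 N V) ∧ Continuous (S1 N V)) ∧
  ∃ a₁ a₀ b₂ b₁ b₀ C c : ℝ, 0 < C ∧ 0 < c ∧ ∀ Y : ℝ, 0 ≤ Y →
    |S0 N V Y - (ρ ^ 2 * Y ^ 2 / 4 + a₁ * Y + a₀)| ≤ C * Real.exp (-(c * Y)) ∧
    |S1 N V Y - (ρ ^ 2 * Y ^ 3 / 12 + b₂ * Y ^ 2 + b₁ * Y + b₀)| ≤ C * Real.exp (-(c * Y))

open Classical in
/-- (MNR) the main term for fixed discriminant as a value of the functional `Ph`. -/
def T_MNR : Prop :=
  ∀ (α : Type) (N : α → ℕ) (ρ δ : ℝ) (V : ℝ → ℝ), AxA N ρ δ → VC V →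
  ∀ (c ν D : ℝ) (S₁ S₂ : Finset α) (w : (α →₀ ℕ) → (α →₀ ℕ) → ℝ)
    (T : Finset ((α →₀ ℕ) × (α →₀ ℕ))) (f : (α →₀ ℕ) × (α →₀ ℕ) → ℝ), 0 < ν → 0 < D →
    (∀ x ∈ T, ∀ p, p ∈ S₁ ∨ p ∈ S₂ → x.1 p = 0 ∧ x.2 p = 0) →
    (∀ e A, w e A = ∑ x ∈ T, if (∀ p, x.1 p ≤ A p) ∧ (∀ p, x.2 p ≤ e p) then f x else 0) →
    Mn N V c ν S₁ S₂ w D = Ph N V c (Real.log (Real.sqrt D))
      ((∑ x ∈ T, (f x / ((nF N x.1 : ℝ) * nF N x.2)) •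
        E (Real.log (nF N x.1)) (Real.log (nF N x.1 * (nF N x.2 : ℝ) ^ 2 / ν))) * ka N S₁ S₂)

/-- (QUR) the polynomial functional on a square, from `T_QUA` of H31. -/
def T_QUR : Prop :=
  ∀ (ρ c a₁ a₀ b₂ b₁ b₀ κ K : ℝ), 0 < ρ → 0 < K → ∃ C : ℝ, 0 < C ∧
    ∀ (N₀ Et B : GR) (l lam g d H Eb s p₀ p₁ p₂ : ℝ), 1 / 2 ≤ l → |lam - κ * l| ≤ K →
      1 ≤ d → 1 ≤ Eb → s ^ 2 = 1 → |H| ≤ K * Eb → |p₀| ≤ K → |p₁| ≤ K → |p₂| ≤ K →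
      (∀ i j, i + j ≤ 3 → |mo i j N₀| ≤ K ∧ |mo i j Et| ≤ K / d) → mo 0 0 Et = g →
      (∀ i j, i + j ≤ 3 → |mo i j B - s * H * l ^ ((i : ℤ) + j - 2) *
        (if i = 0 ∧ j = 0 then p₂ else if i + j = 1 then -p₁ else
          if i = 1 ∧ j = 1 then p₀ else 0)| ≤ K * Eb * l ^ ((i : ℤ) + j - 3)) →
      |lin (fun v => PPr ρ c a₁ a₀ b₂ b₁ b₀ (lam - v.1) (lam - v.2)) (N₀ * (Et * B ^ 2)) -
        ρ ^ 2 * (mo 0 0 N₀ * g * H ^ 2 * l ^ (-1 : ℤ) * Fi κ p₀ p₁ p₂)| ≤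
        C * Eb ^ 2 / d * l ^ (-2 : ℤ)

/-- (MAI) the main term of the mollified second moment. -/
def T_MAI : Prop :=
  ∀ (α : Type) (N : α → ℕ) (ρ δ : ℝ) (V : ℝ → ℝ), AxA N ρ δ → VC V →
  ∀ (c : ℝ) (N₀ : GR) (P : Polynomial ℝ) (R : Finset α) (θ L₀ ε : ℝ), Polynomial.X ^ 5 ∣ P →
    Ad N R → 0 < θ → θ < 1 / 4 → 0 < ε →
    ∃ X₀ : ℝ, ∀ X lam : ℝ, X₀ ≤ X → |lam - 1 / 2 * Real.log X| ≤ L₀ →
      |Ph N V c lam (N₀ * ∑ S₁ ∈ SM N (X ^ θ), ∑ S₂ ∈ SM N (X ^ θ),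
        (cm N P (X ^ θ) R S₁ * cm N P (X ^ θ) R S₂) • ka N S₁ S₂) -
        mo 0 0 N₀ * (Sg N R / ρ) * (1 / 2) * Mt P (1 / (2 * θ))| ≤ ε

/-- (CRR) the singular constant is close to one. -/
def T_CRR : Prop :=
  ∀ (α : Type) (N : α → ℕ) (ρ δ : ℝ), AxA N ρ δ → ∀ ε : ℝ, 0 < ε → ∃ R₀ : Finset α,
    ∀ R : Finset α, R₀ ⊆ R → |(∏ p ∈ R, (1 - 1 / (N p : ℝ)) ^ 3) * Sg N R - 1| ≤ ε

/-- (MU3) the mollifier sum of the first moment. -/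
def T_MU3 : Prop :=
  ∀ (α : Type) (N : α → ℕ) (ρ δ : ℝ), AxA N ρ δ →
    ∀ (P : Polynomial ℝ) (R : Finset α) (κ L₀ : ℝ), Polynomial.X ^ 5 ∣ P →
    ∃ C : ℝ, 0 < C ∧ ∀ M L : ℝ, 2 ≤ M → |L - κ * Real.log M| ≤ L₀ →
      |∑ S ∈ SM N M, cm N P M R S / nS N S| ≤ C / Real.log M ∧
      |∑ S ∈ SM N M, cm N P M R S / nS N S * (L - Real.log (nS N S)) -
        ρ⁻¹ * (∏ p ∈ R, (1 - 1 / (N p : ℝ))⁻¹) *
          (P.eval 1 + κ * P.derivative.eval 1)| ≤ C / Real.log M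

end Pool.Agent.H23.NVK
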