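import Pool.Agent.H10.NVK.BAS
import Pool.Agent.H10.NVK.SSA
import Pool.Agent.H11.NVK.CVI
import Pool.Agent.H24.NVK.MU01
import Pool.Agent.H33.NVK.CVP
import Pool.Agent.H33.NVK.EXP
import Pool.Agent.H34.NVK.BDM
import Pool.Agent.H34.NVK.CRR
import Pool.Agent.H35.NVK.M_HQ
import Pool.Agent.H36.NVK.QUR
import Pool.Agent.H38.NVK.MU3
import Pool.Agent.H4.NVK.PER
import Pool.Agent.H40.NVK.MRT
import Pool.Agent.H42.NVK.M_BK
import Pool.Agent.H42.NVK.M_ETM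
import Pool.Agent.H49.NVK.VS
import Pool.Agent.H5.NVK.DSE
import Pool.Agent.H54.NVK.M_CNV
import Pool.Agent.H64.NVK.MNR
import Pool.Agent.H68.NVK.M_SUM
import Pool.Agent.H81.NVK.MAI
import Pool.Agent.H85.NVK.EUL
import Pool.Agent.H86.NVK.DSU
import Pool.Agent.H94.NVK.MER
import Pool.Agent.H98.NVK.MU2

/-!
# The mollifier over an abstract semigroup: assembly
-/

set_option autoImplicit false

namespace Pool.Agent.H23.NVK.Asm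

open Pool.Agent.H23.NVK

theorem c_CVP : T_CVP := Pool.Agent.H33.NVK.pf_CVP

theorem c_CVI : T_CVI := Pool.Agent.H11.NVK.pf_CVI c_CVP

theorem c_EUL : T_EUL := Pool.Agent.H85.NVK.pf_EUL

theorem c_SUM : T_SUM := Pool.Agent.H68.NVK.pf_SUM

theorem c_EXP : T_EXP := Pool.Agent.H33.NVK.pf_EXP

theorem c_MU0 : T_MU0 := Pool.Agent.H24.NVK.pf_MU0 c_CVI c_SUM c_EXP

theorem c_MU1 : T_MU1 := Pool.Agent.H24.NVK.pf_MU1 c_CVI c_SUM c_EXP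

theorem c_MU2 : T_MU2 := Pool.Agent.H98.NVK.pf_MU2 c_CVI c_SUM c_EXP

theorem c_HQ : T_HQ := Pool.Agent.H35.NVK.pf_HQ c_EUL c_SUM

theorem c_BK : T_BK := Pool.Agent.H42.NVK.pf_BK c_CVI c_MU2 c_HQ

theorem c_MRT : T_MRT := Pool.Agent.H40.NVK.pf_MRT c_CVI c_SUM c_EXP c_MU0 c_MU1

theorem c_MER : T_MER := Pool.Agent.H94.NVK.pf_MER c_MRT

theorem c_VS : T_VS := Pool.Agent.H49.NVK.pf_VS c_BK c_HQ c_MER c_SUM

theorem c_CNV : T_CNV := Pool.Agent.H54.NVK.pf_M_CNV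

theorem c_BDM : T_BDM := Pool.Agent.H34.NVK.pf_BDM

theorem c_BAS : T_BAS := Pool.Agent.H10.NVK.pf_BAS c_BDM c_BK c_VS c_HQ

theorem c_DSU : T_DSU := Pool.Agent.H86.NVK.pf_DSU c_CVP c_EUL c_SUM c_EXP c_HQ

theorem c_DSE : T_DSE := Pool.Agent.H5.NVK.pf_DSE c_MRT c_SUM

theorem c_ETM : T_ETM := Pool.Agent.H42.NVK.pf_ETM c_SUM

theorem c_PER : T_PER := Pool.Agent.H4.NVK.pf_PER c_CNV c_MRT

theorem c_SSA : T_SSA := Pool.Agent.H10.NVK.pf_SSA c_EXP c_SUM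

theorem c_MNR : T_MNR := Pool.Agent.H64.NVK.pf_MNR c_SSA

theorem c_QUR : T_QUR := Pool.Agent.H36.NVK.pf_QUR

theorem c_MAI : T_MAI :=
  Pool.Agent.H81.NVK.pf_MAI c_SSA c_CNV c_QUR c_BAS c_ETM c_DSU c_DSE c_PER c_HQ

theorem c_CRR : T_CRR := Pool.Agent.H34.NVK.pf_CRR c_SUM

theorem c_MU3 : T_MU3 := Pool.Agent.H38.NVK.pf_MU3 c_CVP c_EUL c_MU1

end Pool.Agent.H23.NVK.Asm
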