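import Mathlib

/-!
# Ideal counting with a power saving, part e: the analytic conclusion
(board nvk_modules, T_ICN)
-/

set_option autoImplicit false

open Filter Topology

namespace Pool.Agent.H23.NVK.IC

theorem final (n : ℕ) (hn : 0 < n) (κ : ℝ) (hκ : 0 < κ) (cnt : ℝ → ℝ)
    (hlim : Tendsto (fun y : ℝ => cnt y / y) atTop (𝓝 κ)) (W : ℝ → ℝ → ℝ → ℝ → ℝ) (C : ℝ)
    (hC : 0 ≤ C)
    (hW : ∀ a b η y : ℝ, -2 ≤ a → b ≤ 2 → 0 < η → η ≤ 1 → 1 ≤ y →
      |W a b η (2 ^ n * y) - 2 ^ n * W a b η y| ≤ C * (y / (η * y ^ (1 / (n : ℝ)))))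
    (hup : ∀ a b η y : ℝ, a ≤ b → 0 < η → 0 < y →
      W a b η y ≤ cnt (y * Real.exp b) - cnt (y * Real.exp a))
    (hlo : ∀ a b η y : ℝ, 0 < η → a + η ≤ b - η → 0 < y →
      cnt (y * Real.exp (b - η)) - cnt (y * Real.exp (a + η)) ≤ W a b η y)
    (hb : ∃ B : ℝ, ∀ y : ℝ, 1 ≤ y → y ≤ 2 → |cnt y - κ * y| ≤ B) :
    ∃ C' : ℝ, 0 < C' ∧ ∀ y : ℝ, 1 ≤ y → |cnt y - κ * y| ≤ C' * y ^ (1 - 1 / (4 * (n : ℝ))) := by
  have hnR : (1 : ℝ) ≤ n := by exact_mod_cast hn
  have hnR0 : (n : ℝ) ≠ 0 := by linarith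
  -- iteration
  have hA : ∀ (a b η y : ℝ), -2 ≤ a → b ≤ 2 → 0 < η → η ≤ 1 → 1 ≤ y → ∀ k : ℕ,
      |W a b η ((2 ^ n) ^ k * y) / (2 ^ n) ^ k - W a b η y| ≤
        C * (y / (η * y ^ (1 / (n : ℝ)))) * (1 - 1 / 2 ^ k) := by
    intro a b η y ha hb' hη hη1 hy k
    have hy0 : 0 < y := by linarith
    induction k with
    | zero => simp
    | succ k ih =>
      have hq : (0 : ℝ) < (2 ^ n) ^ k := by positivity
      have h1 := hW a b η ((2 ^ n) ^ k * y) ha hb' hη hη1
        (by nlinarith [one_le_pow₀ (one_le_pow₀ (one_le_two (α := ℝ)) : (1 : ℝ) ≤ 2 ^ n) (n := k)])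
      have h2 : ((2 ^ n) ^ k * y) ^ (1 / (n : ℝ)) = 2 ^ k * y ^ (1 / (n : ℝ)) := by
        rw [Real.mul_rpow hq.le hy0.le, ← pow_mul, mul_comm n k, pow_mul, ← Real.rpow_natCast _ n,
          ← Real.rpow_mul (by positivity), mul_one_div_cancel hnR0, Real.rpow_one]
      rw [h2] at h1
      have h3 : (2 : ℝ) ^ n * ((2 ^ n) ^ k * y) = (2 ^ n) ^ (k + 1) * y := by
        rw [pow_succ]
        ring
      rw [h3] at h1
      have hq1 : (0 : ℝ) < (2 ^ n) ^ (k + 1) := by positivity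
      have h4 : |W a b η ((2 ^ n) ^ (k + 1) * y) / (2 ^ n) ^ (k + 1) -
          W a b η ((2 ^ n) ^ k * y) / (2 ^ n) ^ k| ≤
          C * (y / (η * y ^ (1 / (n : ℝ)))) * (1 / 2 ^ (k + 1)) := by
        have h5 : W a b η ((2 ^ n) ^ (k + 1) * y) / (2 ^ n) ^ (k + 1) -
            W a b η ((2 ^ n) ^ k * y) / (2 ^ n) ^ k =
            (W a b η ((2 ^ n) ^ (k + 1) * y) - 2 ^ n * W a b η ((2 ^ n) ^ k * y)) /
              (2 ^ n) ^ (k + 1) := by
          rw [pow_succ (2 ^ n : ℝ) k]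
          field_simp
        rw [h5, abs_div, abs_of_pos hq1, div_le_iff₀ hq1]
        refine le_trans h1 ?_
        have h6 : (2 : ℝ) ≤ 2 ^ n := by
          calc (2 : ℝ) = 2 ^ 1 := by norm_num
            _ ≤ 2 ^ n := pow_le_pow_right₀ one_le_two hn
        have hyn : 0 < y ^ (1 / (n : ℝ)) := Real.rpow_pos_of_pos hy0 _
        have hE : 0 ≤ C * (y / (η * y ^ (1 / (n : ℝ)))) := by positivity
        have h7 : C * ((2 ^ n) ^ k * y / (η * (2 ^ k * y ^ (1 / (n : ℝ))))) =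
            C * (y / (η * y ^ (1 / (n : ℝ)))) * ((2 ^ n) ^ k / 2 ^ k) := by
          field_simp
        rw [h7, mul_assoc (C * (y / (η * y ^ (1 / (n : ℝ)))))]
        refine mul_le_mul_of_nonneg_left ?_ hE
        rw [pow_succ (2 ^ n : ℝ) k, pow_succ (2 : ℝ) k]
        have h8 : 1 / (2 ^ k * 2) * (((2 : ℝ) ^ n) ^ k * 2 ^ n) =
            (((2 : ℝ) ^ n) ^ k / 2 ^ k) * (2 ^ n / 2) := by
          field_simp
        rw [h8]
        refine le_mul_of_one_le_right (by positivity) ?_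
        linarith
      have h5 := abs_add_le (W a b η ((2 ^ n) ^ (k + 1) * y) / (2 ^ n) ^ (k + 1) -
          W a b η ((2 ^ n) ^ k * y) / (2 ^ n) ^ k)
          (W a b η ((2 ^ n) ^ k * y) / (2 ^ n) ^ k - W a b η y)
      rw [sub_add_sub_cancel] at h5
      refine le_trans h5 (le_trans (add_le_add h4 ih) (le_of_eq ?_))
      rw [pow_succ]
      field_simp
      ring
  have hA' : ∀ (a b η y : ℝ), -2 ≤ a → b ≤ 2 → 0 < η → η ≤ 1 → 1 ≤ y → ∀ k : ℕ,
      |W a b η ((2 ^ n) ^ k * y) / (2 ^ n) ^ k - W a b η y| ≤ C * (y / (η * y ^ (1 / (n : ℝ)))) := by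
    intro a b η y ha hb' hη hη1 hy k
    have hy0 : 0 < y := by linarith
    refine le_trans (hA a b η y ha hb' hη hη1 hy k) (mul_le_of_le_one_right ?_ ?_)
    · have hyn : 0 < y ^ (1 / (n : ℝ)) := Real.rpow_pos_of_pos hy0 _
      positivity
    · have : (0 : ℝ) ≤ 1 / 2 ^ k := by positivity
      linarith
  -- limits
  have hL : ∀ y c : ℝ, 0 < y → Tendsto (fun k : ℕ => cnt ((2 ^ n) ^ k * y * Real.exp c) / (2 ^ n) ^ k)
      atTop (𝓝 (κ * (y * Real.exp c))) := by
    intro y c hy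
    have h1 : Tendsto (fun k : ℕ => ((2 : ℝ) ^ n) ^ k * y * Real.exp c) atTop atTop := by
      have h2 : Tendsto (fun k : ℕ => ((2 : ℝ) ^ n) ^ k) atTop atTop :=
        tendsto_pow_atTop_atTop_of_one_lt (one_lt_pow₀ one_lt_two hn.ne')
      exact (h2.atTop_mul_const hy).atTop_mul_const (Real.exp_pos c)
    have h2 := (hlim.comp h1).mul_const (y * Real.exp c)
    refine h2.congr fun k => ?_
    have hq : (0 : ℝ) < (2 ^ n) ^ k := by positivity
    have he := Real.exp_pos c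
    show cnt ((2 ^ n) ^ k * y * Real.exp c) / ((2 ^ n) ^ k * y * Real.exp c) * (y * Real.exp c) = _
    field_simp
  have hU : ∀ (a b η y : ℝ), -2 ≤ a → b ≤ 2 → a ≤ b → 0 < η → η ≤ 1 → 1 ≤ y →
      W a b η y ≤ κ * (y * Real.exp b) - κ * (y * Real.exp a) + C * (y / (η * y ^ (1 / (n : ℝ)))) := by
    intro a b η y ha hb' hab hη hη1 hy
    have hy0 : 0 < y := by linarith
    have h1 := ((hL y b hy0).sub (hL y a hy0)).add_const (C * (y / (η * y ^ (1 / (n : ℝ)))))
    refine ge_of_tendsto h1 (Eventually.of_forall fun k => ?_)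
    have hq : (0 : ℝ) < (2 ^ n) ^ k := by positivity
    have h2 := (abs_le.1 (hA' a b η y ha hb' hη hη1 hy k)).1
    have h3 := hup a b η ((2 ^ n) ^ k * y) hab hη (by positivity)
    have h4 := div_le_div_of_nonneg_right h3 hq.le
    rw [sub_div] at h4
    linarith
  have hD : ∀ (a b η y : ℝ), -2 ≤ a → b ≤ 2 → a + η ≤ b - η → 0 < η → η ≤ 1 → 1 ≤ y →
      κ * (y * Real.exp (b - η)) - κ * (y * Real.exp (a + η)) -
        C * (y / (η * y ^ (1 / (n : ℝ)))) ≤ W a b η y := by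
    intro a b η y ha hb' hab hη hη1 hy
    have hy0 : 0 < y := by linarith
    have h1 := ((hL y (b - η) hy0).sub (hL y (a + η) hy0)).sub_const
      (C * (y / (η * y ^ (1 / (n : ℝ)))))
    refine le_of_tendsto h1 (Eventually.of_forall fun k => ?_)
    have hq : (0 : ℝ) < (2 ^ n) ^ k := by positivity
    have h2 := (abs_le.1 (hA' a b η y ha hb' hη hη1 hy k)).2
    have h3 := hlo a b η ((2 ^ n) ^ k * y) hη hab (by positivity)
    have h4 := div_le_div_of_nonneg_right h3 hq.le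
    rw [sub_div] at h4
    linarith
  -- the dyadic block
  have hlog : (0.69 : ℝ) < Real.log 2 := by linarith [Real.log_two_gt_d9]
  have hlog' : Real.log 2 < 0.7 := by linarith [Real.log_two_lt_d9]
  have hblock : ∀ y : ℝ, 1 ≤ y → |cnt y - cnt (y / 2) - κ * y / 2| ≤
      (κ + 4 * C) * y ^ (1 - 1 / (2 * (n : ℝ))) := by
    intro y hy
    have hy0 : 0 < y := by linarith
    obtain ⟨η, hη⟩ : ∃ η : ℝ, η = y ^ (-(1 / (2 * (n : ℝ)))) / 4 := ⟨_, rfl⟩
    have hηp : 0 < η := by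
      rw [hη]
      have := Real.rpow_pos_of_pos hy0 (-(1 / (2 * (n : ℝ))))
      positivity
    have hη4 : η ≤ 1 / 4 := by
      rw [hη]
      have : y ^ (-(1 / (2 * (n : ℝ)))) ≤ 1 := Real.rpow_le_one_of_one_le_of_nonpos hy (by
        rw [neg_nonpos]
        positivity)
      linarith
    have hηy : η * y = y ^ (1 - 1 / (2 * (n : ℝ))) / 4 := by
      rw [hη, div_mul_eq_mul_div, sub_eq_add_neg, Real.rpow_add hy0, Real.rpow_one]
      ring
    have hE : y / (η * y ^ (1 / (n : ℝ))) = 4 * y ^ (1 - 1 / (2 * (n : ℝ))) := by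
      have h1 : y ^ (-(1 / (2 * (n : ℝ)))) * y ^ (1 / (n : ℝ)) = y ^ (1 / (2 * (n : ℝ))) := by
        rw [← Real.rpow_add hy0]
        congr 1
        field_simp
        ring
      have h2 : y ^ (1 - 1 / (2 * (n : ℝ))) * y ^ (1 / (2 * (n : ℝ))) = y := by
        rw [← Real.rpow_add hy0, sub_add_cancel, Real.rpow_one]
      have h3 : 0 < y ^ (1 / (2 * (n : ℝ))) := Real.rpow_pos_of_pos hy0 _
      have h4 : η * y ^ (1 / (n : ℝ)) = y ^ (1 / (2 * (n : ℝ))) / 4 := by
        rw [hη, div_mul_eq_mul_div, h1]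
      rw [h4, div_div_eq_mul_div, div_eq_iff h3.ne']
      linarith
    have he1 : Real.exp η ≤ 1 + 2 * η := by
      have h1 := Real.abs_exp_sub_one_le (x := η) (by rw [abs_of_pos hηp]; linarith)
      rw [abs_of_pos hηp] at h1
      linarith [(abs_le.1 h1).2]
    have he2 : 1 - η ≤ Real.exp (-η) := by linarith [Real.add_one_le_exp (-η)]
    have hhalf : Real.exp (-Real.log 2) = 1 / 2 := by
      rw [Real.exp_neg, Real.exp_log two_pos, one_div]
    have hp : 0 ≤ y ^ (1 - 1 / (2 * (n : ℝ))) := (Real.rpow_pos_of_pos hy0 _).le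
    -- upper bound
    have hu1 := hlo (-Real.log 2 - η) η η y hηp (by linarith) hy0
    have hu2 := hU (-Real.log 2 - η) η η y (by linarith) (by linarith) (by linarith) hηp
      (by linarith) hy
    have e1 : η - η = 0 := sub_self _
    have e2 : -Real.log 2 - η + η = -Real.log 2 := by ring
    rw [e1, e2, Real.exp_zero, mul_one, hhalf] at hu1
    have e3 : y * (1 / 2) = y / 2 := by ring
    rw [e3] at hu1
    have e4 : Real.exp (-Real.log 2 - η) = Real.exp (-η) / 2 := by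
      rw [sub_eq_add_neg, Real.exp_add, hhalf]
      ring
    rw [e4, hE] at hu2
    -- lower bound
    have hl1 := hup (-Real.log 2) 0 η y (by linarith) hηp hy0
    have hl2 := hD (-Real.log 2) 0 η y (by linarith) (by linarith) (by linarith) hηp
      (by linarith) hy
    rw [Real.exp_zero, mul_one, hhalf, e3] at hl1
    have e5 : Real.exp (-Real.log 2 + η) = Real.exp η / 2 := by
      rw [Real.exp_add, hhalf]
      ring
    rw [e5, hE, zero_sub] at hl2
    have hκy : 0 < κ * y := by positivity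
    have hky : κ * (η * y) = κ * y ^ (1 - 1 / (2 * (n : ℝ))) / 4 := by rw [hηy]; ring
    have m1 : κ * y * Real.exp η ≤ κ * y * (1 + 2 * η) := mul_le_mul_of_nonneg_left he1 hκy.le
    have m2 : κ * y * (1 - η) ≤ κ * y * Real.exp (-η) := mul_le_mul_of_nonneg_left he2 hκy.le
    have hkp : 0 ≤ κ * y ^ (1 - 1 / (2 * (n : ℝ))) := by positivity
    rw [abs_le]
    constructor
    · nlinarith
    · nlinarith
  -- induction
  obtain ⟨B, hB⟩ := hb
  have hB0 : 0 ≤ B := le_trans (abs_nonneg _) (hB 1 le_rfl one_le_two)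
  obtain ⟨δ, hδ⟩ : ∃ δ : ℝ, δ = 1 / (4 * (n : ℝ)) := ⟨_, rfl⟩
  have hδ0 : 0 < δ := by rw [hδ]; positivity
  have hδ1 : δ ≤ 1 / 4 := by
    rw [hδ]
    exact one_div_le_one_div_of_le (by norm_num) (by linarith)
  rw [← hδ]
  have hδ2 : 1 - 1 / (2 * (n : ℝ)) ≤ 1 - δ := by
    rw [hδ]
    have : 1 / (4 * (n : ℝ)) ≤ 1 / (2 * (n : ℝ)) :=
      one_div_le_one_div_of_le (by positivity) (by linarith)
    linarith
  have hC2 : 0 ≤ κ + 4 * C := by positivity
  refine ⟨B + 4 * (κ + 4 * C), by positivity, ?_⟩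
  have key : ∀ (j : ℕ) (y : ℝ), 1 ≤ y → y ≤ 2 ^ (j + 1) →
      |cnt y - κ * y| ≤ (B + 4 * (κ + 4 * C)) * y ^ (1 - δ) := by
    intro j
    induction j with
    | zero =>
      intro y hy hy2
      rw [zero_add, pow_one] at hy2
      have h1 : (1 : ℝ) ≤ y ^ (1 - δ) := Real.one_le_rpow hy (by linarith)
      have h2 := hB y hy hy2
      nlinarith
    | succ j ih =>
      intro y hy hy2
      have hy0 : 0 < y := by linarith
      rcases le_or_gt y 2 with h | h
      · have h1 : (1 : ℝ) ≤ y ^ (1 - δ) := Real.one_le_rpow hy (by linarith)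
        have h2 := hB y hy h
        nlinarith
      · have h1 := ih (y / 2) (by linarith) (by
          rw [pow_succ] at hy2
          linarith)
        have h2 := hblock y hy
        have h3 : y ^ (1 - 1 / (2 * (n : ℝ))) ≤ y ^ (1 - δ) :=
          Real.rpow_le_rpow_of_exponent_le hy hδ2
        have h4 : (y / 2) ^ (1 - δ) ≤ 3 / 4 * y ^ (1 - δ) := by
          rw [Real.div_rpow hy0.le two_pos.le, div_eq_mul_inv, mul_comm]
          refine mul_le_mul_of_nonneg_right ?_ (Real.rpow_pos_of_pos hy0 _).le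
          rw [inv_le_comm₀ (Real.rpow_pos_of_pos two_pos _) (by norm_num)]
          have h5 : (2 : ℝ) ^ ((1 : ℝ) / 2) ≤ 2 ^ (1 - δ) :=
            Real.rpow_le_rpow_of_exponent_le one_le_two (by linarith)
          refine le_trans ?_ h5
          rw [← Real.sqrt_eq_rpow]
          exact Real.le_sqrt_of_sq_le (by norm_num)
        have h5 : cnt y - κ * y = (cnt y - cnt (y / 2) - κ * y / 2) + (cnt (y / 2) - κ * (y / 2)) := by
          ring
        have h6 := abs_add_le (cnt y - cnt (y / 2) - κ * y / 2) (cnt (y / 2) - κ * (y / 2))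
        rw [← h5] at h6
        have hp : 0 < y ^ (1 - δ) := Real.rpow_pos_of_pos hy0 _
        have h7 : (κ + 4 * C) * y ^ (1 - 1 / (2 * (n : ℝ))) ≤ (κ + 4 * C) * y ^ (1 - δ) :=
          mul_le_mul_of_nonneg_left h3 hC2
        have h8 : (B + 4 * (κ + 4 * C)) * (y / 2) ^ (1 - δ) ≤
            (B + 4 * (κ + 4 * C)) * (3 / 4 * y ^ (1 - δ)) :=
          mul_le_mul_of_nonneg_left h4 (by positivity)
        have h9 : 0 ≤ B * y ^ (1 - δ) := by positivity
        nlinarith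
  intro y hy
  obtain ⟨j, hj⟩ := pow_unbounded_of_one_lt y (one_lt_two (α := ℝ))
  exact key j y hy (le_trans hj.le (pow_le_pow_right₀ one_le_two (Nat.le_succ j)))

end Pool.Agent.H23.NVK.IC
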