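import Pool.Agent.H23.NVK.MTargets
import Pool.Agent.H61.NVK.Base
import Pool.Agent.H37.CV.Defs

/-!
# The mollifier over a number field: the interface between ideals and the abstract semigroup
(board nvk_modules, letters M_..)
-/

set_option autoImplicit false

open MeasureTheory Set Filter NumberField
open scoped Real

namespace Pool.Agent.H23.NVK

open Pool.Agent.H28.RC (PrI)

section

variable (k : Type) [Field k] [NumberField k]

/-- the norm of a prime -/
noncomputable def NP (P : PrI k) : ℕ := Ideal.absNorm P.1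

variable {k}

/-- the ideal of an element of the free commutative monoid -/
noncomputable def idF (n : PrI k →₀ ℕ) : Ideal (𝓞 k) := n.prod fun P j => P.1 ^ j

end

/-- (BRG) the nonzero ideals are the elements of the free commutative monoid over the primes. -/
def T_BRG : Prop :=
  ∀ (k : Type) [Field k] [NumberField k],
    ∃ e : (PrI k →₀ ℕ) ≃ {I : Ideal (𝓞 k) // I ≠ ⊥},
      (∀ n, (e n).1 = idF n) ∧ (∀ n, Ideal.absNorm (e n).1 = nF (NP k) n) ∧
      (∀ m n, (e (m + n)).1 = (e m).1 * (e n).1) ∧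
      (∀ (n : PrI k →₀ ℕ) (P : PrI k) (j : ℕ), P.1 ^ j ∣ (e n).1 ↔ j ≤ n P) ∧
      (∀ m n, (e m).1 ∣ (e n).1 ↔ ∀ P, m P ≤ n P) ∧
      (∀ S : Finset (PrI k), (e (ind S)).1 = ∏ P ∈ S, P.1) ∧
      (∀ S : Finset (PrI k), Ideal.absNorm (∏ P ∈ S, P.1) = nS (NP k) S)

/-- (ICN) ideal counting with a power saving. -/
def T_ICN : Prop :=
  ∀ (k : Type) [Field k] [NumberField k] [IsTotallyReal k], ∃ δ C : ℝ, 0 < δ ∧ δ ≤ 1 / 4 ∧
    0 < C ∧ ∀ y : ℝ, 1 ≤ y →
      {I : Ideal (𝓞 k) | I ≠ ⊥ ∧ (Ideal.absNorm I : ℝ) ≤ y}.Finite ∧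
      |({I : Ideal (𝓞 k) | I ≠ ⊥ ∧ (Ideal.absNorm I : ℝ) ≤ y}.ncard : ℝ) -
        Pool.Agent.H61.NVK.kp k * y| ≤ C * y ^ (1 - δ)

/-- (AXK) Axiom A for the ideals of a totally real field. -/
def T_AXK : Prop :=
  ∀ (k : Type) [Field k] [NumberField k] [IsTotallyReal k], ∃ δ : ℝ,
    AxA (NP k) (Pool.Agent.H61.NVK.kp k) δ

end Pool.Agent.H23.NVK
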