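import Pool.Agent.H23.NVK.ICc
import Pool.Agent.H23.NVK.ICe
import Pool.Agent.H23.NVK.ITargets
import Pool.Agent.H25.HK.Final

/-!
# Ideal counting with a power saving (board nvk_modules, T_ICN)
-/

set_option autoImplicit false

open NumberField NumberField.InfinitePlace NumberField.Units
  NumberField.Units.dirichletUnitTheorem MeasureTheory Set Filter
open scoped nonZeroDivisors ENNReal Topology

namespace Pool.Agent.H23.NVK.IC

open Pool.Agent.H25.HK

section NF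

variable (K : Type) [Field K] [NumberField K]

/-- the set of the nonzero ideals of norm at most `z` -/
def SI (z : ℝ) : Set (Ideal (𝓞 K)) := {I : Ideal (𝓞 K) | I ≠ ⊥ ∧ (Ideal.absNorm I : ℝ) ≤ z}

theorem fin_SI (z : ℝ) : (SI K z).Finite := by
  refine (Ideal.finite_setOfPred_absNorm_le (S := 𝓞 K) ⌊z⌋₊).subset ?_
  rintro I ⟨h1, h2⟩
  exact Nat.le_floor h2

/-- the finite set of the nonzero ideals of norm at most `z` -/
noncomputable def FS (z : ℝ) : Finset (Ideal (𝓞 K)) := (fin_SI K z).toFinset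

theorem mem_FS (z : ℝ) (I : Ideal (𝓞 K)) : I ∈ FS K z ↔ I ≠ ⊥ ∧ (Ideal.absNorm I : ℝ) ≤ z := by
  unfold FS
  rw [Set.Finite.mem_toFinset]
  rfl

theorem norm_pos' {I : Ideal (𝓞 K)} (h : I ≠ ⊥) : (0 : ℝ) < Ideal.absNorm I := by
  have : Ideal.absNorm I ≠ 0 := fun h' => h (Ideal.absNorm_eq_zero_iff.1 h')
  exact_mod_cast Nat.pos_of_ne_zero this

/-- the weighted sum over all ideals, in `ℝ≥0∞` -/
noncomputable def WE (a b η y : ℝ) : ℝ≥0∞ := ∑' I : {I : Ideal (𝓞 K) // I ≠ ⊥},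
  ENNReal.ofReal (tr a b η (Real.log (Ideal.absNorm I.1 : ℝ) - Real.log y))

theorem WE_fin (a b η y : ℝ) (hη : 0 < η) (hy : 0 < y) :
    WE K a b η y = ENNReal.ofReal (∑ I ∈ FS K (y * Real.exp b),
      tr a b η (Real.log (Ideal.absNorm I : ℝ) - Real.log y)) := by
  classical
  unfold WE
  rw [ENNReal.ofReal_sum_of_nonneg fun I _ => tr_nonneg _ _ _ _]
  have h1 := tsum_subtype {I : Ideal (𝓞 K) | I ≠ ⊥} (fun I : Ideal (𝓞 K) =>
    ENNReal.ofReal (tr a b η (Real.log (Ideal.absNorm I : ℝ) - Real.log y)))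
  refine Eq.trans h1 ?_
  rw [tsum_eq_sum (s := FS K (y * Real.exp b))]
  · refine Finset.sum_congr rfl fun I hI => ?_
    rw [Set.indicator_of_mem]
    exact ((mem_FS K _ I).1 hI).1
  · intro I hI
    by_cases h0 : I = ⊥
    · rw [Set.indicator_of_notMem]
      exact fun h => h h0
    · rw [Set.indicator_of_mem (show I ∈ {I : Ideal (𝓞 K) | I ≠ ⊥} from h0)]
      have h2 : tr a b η (Real.log (Ideal.absNorm I : ℝ) - Real.log y) = 0 := by
        by_contra hne
        have h3 := (tr_supp hη hne).2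
        apply hI
        rw [mem_FS]
        refine ⟨h0, ?_⟩
        have h4 : Real.log (Ideal.absNorm I : ℝ) ≤ Real.log (y * Real.exp b) := by
          rw [Real.log_mul hy.ne' (Real.exp_pos _).ne', Real.log_exp]
          linarith
        exact (Real.log_le_log_iff (norm_pos' K h0) (by positivity)).1 h4
      rw [h2, ENNReal.ofReal_zero]

/-- the weighted sum over all ideals -/
noncomputable def WR (a b η y : ℝ) : ℝ := (WE K a b η y).toReal

theorem WR_fin (a b η y : ℝ) (hη : 0 < η) (hy : 0 < y) :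
    WR K a b η y = ∑ I ∈ FS K (y * Real.exp b),
      tr a b η (Real.log (Ideal.absNorm I : ℝ) - Real.log y) := by
  unfold WR
  rw [WE_fin K a b η y hη hy,
    ENNReal.toReal_ofReal (Finset.sum_nonneg fun I _ => tr_nonneg _ _ _ _)]

theorem FS_mono {z z' : ℝ} (h : z ≤ z') : FS K z ⊆ FS K z' := by
  intro I hI
  rw [mem_FS] at hI ⊢
  exact ⟨hI.1, le_trans hI.2 h⟩

theorem up (a b η y : ℝ) (hab : a ≤ b) (hη : 0 < η) (hy : 0 < y) :
    WR K a b η y ≤ ((FS K (y * Real.exp b)).card : ℝ) - (FS K (y * Real.exp a)).card := by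
  classical
  have hsub : FS K (y * Real.exp a) ⊆ FS K (y * Real.exp b) :=
    FS_mono K (mul_le_mul_of_nonneg_left (Real.exp_le_exp.2 hab) hy.le)
  rw [WR_fin K a b η y hη hy, ← Finset.sum_sdiff hsub]
  have h1 : ∑ I ∈ FS K (y * Real.exp a),
      tr a b η (Real.log (Ideal.absNorm I : ℝ) - Real.log y) = 0 := by
    refine Finset.sum_eq_zero fun I hI => ?_
    by_contra hne
    have h2 := (tr_supp hη hne).1
    rw [mem_FS] at hI
    have h3 := Real.log_le_log (norm_pos' K hI.1) hI.2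
    rw [Real.log_mul hy.ne' (Real.exp_pos _).ne', Real.log_exp] at h3
    linarith
  rw [h1, add_zero]
  have h2 : ∑ I ∈ FS K (y * Real.exp b) \ FS K (y * Real.exp a),
      tr a b η (Real.log (Ideal.absNorm I : ℝ) - Real.log y) ≤
      ((FS K (y * Real.exp b) \ FS K (y * Real.exp a)).card : ℝ) := by
    refine le_trans (Finset.sum_le_card_nsmul _ _ 1 fun I _ => tr_le _ _ _ _) ?_
    rw [nsmul_eq_mul, mul_one]
  refine le_trans h2 (le_of_eq ?_)
  rw [Finset.card_sdiff_of_subset hsub, Nat.cast_sub (Finset.card_le_card hsub)]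

theorem lo (a b η y : ℝ) (hη : 0 < η) (hab : a + η ≤ b - η) (hy : 0 < y) :
    ((FS K (y * Real.exp (b - η))).card : ℝ) - (FS K (y * Real.exp (a + η))).card ≤
      WR K a b η y := by
  classical
  have hsub : FS K (y * Real.exp (a + η)) ⊆ FS K (y * Real.exp (b - η)) :=
    FS_mono K (mul_le_mul_of_nonneg_left (Real.exp_le_exp.2 hab) hy.le)
  have hsub2 : FS K (y * Real.exp (b - η)) \ FS K (y * Real.exp (a + η)) ⊆
      FS K (y * Real.exp b) := by
    refine (Finset.sdiff_subset).trans (FS_mono K ?_)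
    exact mul_le_mul_of_nonneg_left (Real.exp_le_exp.2 (by linarith)) hy.le
  rw [WR_fin K a b η y hη hy, ← Nat.cast_sub (Finset.card_le_card hsub),
    ← Finset.card_sdiff_of_subset hsub]
  refine le_trans ?_ (Finset.sum_le_sum_of_subset_of_nonneg hsub2
    fun I _ _ => tr_nonneg _ _ _ _)
  rw [← nsmul_one, nsmul_eq_mul, mul_one]
  have h1 : ∑ I ∈ FS K (y * Real.exp (b - η)) \ FS K (y * Real.exp (a + η)),
      tr a b η (Real.log (Ideal.absNorm I : ℝ) - Real.log y) =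
      ∑ _I ∈ FS K (y * Real.exp (b - η)) \ FS K (y * Real.exp (a + η)), (1 : ℝ) := by
    refine Finset.sum_congr rfl fun I hI => ?_
    rw [Finset.mem_sdiff, mem_FS, mem_FS] at hI
    obtain ⟨⟨h0, h2⟩, h3⟩ := hI
    have h4 : y * Real.exp (a + η) < Ideal.absNorm I := by
      by_contra hc
      exact h3 ⟨h0, not_lt.1 hc⟩
    have h5 := Real.log_le_log (norm_pos' K h0) h2
    rw [Real.log_mul hy.ne' (Real.exp_pos _).ne', Real.log_exp] at h5
    have h6 := Real.log_lt_log (by positivity) h4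
    rw [Real.log_mul hy.ne' (Real.exp_pos _).ne', Real.log_exp] at h6
    unfold tr
    have h7 : 1 ≤ (Real.log (Ideal.absNorm I : ℝ) - Real.log y - a) / η := by
      rw [le_div_iff₀ hη]
      linarith
    have h8 : 1 ≤ (b - (Real.log (Ideal.absNorm I : ℝ) - Real.log y)) / η := by
      rw [le_div_iff₀ hη]
      linarith
    rw [min_eq_left (le_min h7 h8), max_eq_right zero_le_one]
  rw [h1, Finset.sum_const, nsmul_eq_mul, mul_one]

/-- the total comparison -/
theorem cmpW : ∃ C : ℝ, 0 ≤ C ∧ ∀ a b η y : ℝ, -2 ≤ a → b ≤ 2 → 0 < η → η ≤ 1 → 1 ≤ y →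
    |WR K a b η (2 ^ (Module.finrank ℚ K) * y) - 2 ^ (Module.finrank ℚ K) * WR K a b η y| ≤
      C * (y / (η * y ^ (1 / (Module.finrank ℚ K : ℝ)))) := by
  classical
  obtain ⟨ι, _, M, hM0, hM1, -⟩ := T_CS_proved K
  obtain ⟨N, hN⟩ : ∃ N : ι → ℝ, N = fun c => ((FractionalIdeal.absNorm (M c) : ℚ) : ℝ) := ⟨_, rfl⟩
  have hN0 : ∀ c, 0 < N c := fun c => by
    rw [hN]
    exact (T_DU_proved K (M c) (hM0 c)).2.2.2.1
  obtain ⟨n, hnd⟩ : ∃ n : ℕ, n = Module.finrank ℚ K := ⟨_, rfl⟩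
  choose C hC hcmp using fun c => cmpI K Pool.Agent.H3.HK.lb (M c) (hM0 c) (N c) (hN0 c)
  rw [← hnd] at hcmp ⊢
  obtain ⟨w, hw⟩ : ∃ w : ℝ, w = (torsionOrder K : ℝ) := ⟨_, rfl⟩
  have hw0 : 0 < w := by
    rw [hw]
    exact_mod_cast torsionOrder_pos K
  -- the sum over the classes
  have hsplit : ∀ a b η y : ℝ, 0 < y → (torsionOrder K : ℝ≥0∞) * WE K a b η y =
      ∑ c, ∑' x : {x : K // x ∈ M c}, ENNReal.ofReal (ph K a b η (y * N c) x) := by
    intro a b η y hy
    let g : (Σ c : ι, {I : Ideal (𝓞 K) // Pri K (M c) I}) → {I : Ideal (𝓞 K) // I ≠ ⊥} :=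
      fun p => ⟨p.2.1, p.2.2.1⟩
    have hg : Function.Bijective g := by
      constructor
      · rintro ⟨c, I, hI⟩ ⟨c', I', hI'⟩ h
        have h1 : I = I' := congrArg Subtype.val h
        subst h1
        obtain ⟨c₀, -, hc₀⟩ := hM1 I hI.1
        have h2 : c = c' := by rw [hc₀ c hI, hc₀ c' hI']
        subst h2
        rfl
      · rintro ⟨I, hI⟩
        obtain ⟨c, hc, -⟩ := hM1 I hI
        exact ⟨⟨c, I, hc⟩, rfl⟩
    have h1 : WE K a b η y = ∑ c, ∑' I : {I : Ideal (𝓞 K) // Pri K (M c) I},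
        ENNReal.ofReal (tr a b η (Real.log (Ideal.absNorm I.1 : ℝ) - Real.log y)) := by
      unfold WE
      rw [← (Equiv.ofBijective g hg).tsum_eq, ENNReal.tsum_sigma', tsum_fintype]
      rfl
    rw [h1, Finset.mul_sum]
    refine Finset.sum_congr rfl fun c _ => ?_
    rw [unfold_sum K Pool.Agent.H41.HK.bi Pool.Agent.H41.HK.un (M c) (hM0 c) a b η (y * N c)
      (by have := hN0 c; rw [hN] at this; exact this)]
    congr 1
    refine tsum_congr fun I => ?_
    rw [Real.log_mul hy.ne' (hN0 c).ne']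
    congr 2
    rw [hN]
    ring
  have hreal : ∀ a b η y : ℝ, -2 ≤ a → b ≤ 2 → 0 < η → η ≤ 1 → 1 ≤ y → w * WR K a b η y =
      ∑ c, (∑' x : {x : K // x ∈ M c}, ENNReal.ofReal (ph K a b η (y * N c) x)).toReal := by
    intro a b η y ha hb hη hη1 hy
    have hy0 : 0 < y := by linarith
    have h1 := congrArg ENNReal.toReal (hsplit a b η y hy0)
    rw [ENNReal.toReal_mul, ENNReal.toReal_natCast, ← hw, ENNReal.toReal_sum] at h1
    · exact h1
    · intro c _
      exact (hcmp c a b η (y * N c) ha hb hη hη1 (le_mul_of_one_le_left (hN0 c).le hy)).1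
  refine ⟨∑ c, C c * (N c / (N c) ^ (1 / (n : ℝ))) / w, ?_, ?_⟩
  · refine Finset.sum_nonneg fun c _ => ?_
    have h1 := hN0 c
    have h2 := hC c
    have h3 : 0 < (N c) ^ (1 / (n : ℝ)) := Real.rpow_pos_of_pos h1 _
    positivity
  intro a b η y ha hb hη hη1 hy
  have hy0 : 0 < y := by linarith
  have hy2 : 1 ≤ 2 ^ n * y := by
    have : (1 : ℝ) ≤ 2 ^ n := one_le_pow₀ one_le_two
    nlinarith
  have h1 := hreal a b η y ha hb hη hη1 hy
  have h2 := hreal a b η (2 ^ n * y) ha hb hη hη1 hy2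
  have h3 : WR K a b η (2 ^ n * y) - 2 ^ n * WR K a b η y =
      (∑ c, ((∑' x : {x : K // x ∈ M c},
        ENNReal.ofReal (ph K a b η (2 ^ n * (y * N c)) x)).toReal -
        2 ^ n * (∑' x : {x : K // x ∈ M c},
          ENNReal.ofReal (ph K a b η (y * N c) x)).toReal)) / w := by
    rw [eq_div_iff hw0.ne', Finset.sum_sub_distrib, ← Finset.mul_sum, ← h1]
    simp_rw [← mul_assoc]
    rw [← h2]
    ring
  rw [h3, abs_div, abs_of_pos hw0, div_le_iff₀ hw0]
  refine le_trans (Finset.abs_sum_le_sum_abs _ _) ?_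
  rw [Finset.sum_mul, Finset.sum_mul]
  refine Finset.sum_le_sum fun c _ => ?_
  refine le_trans (hcmp c a b η (y * N c) ha hb hη hη1 (le_mul_of_one_le_left (hN0 c).le hy)).2 ?_
  refine le_of_eq ?_
  rw [Real.mul_rpow hy0.le (hN0 c).le]
  have h4 : 0 < (N c) ^ (1 / (n : ℝ)) := Real.rpow_pos_of_pos (hN0 c) _
  have h5 : 0 < y ^ (1 / (n : ℝ)) := Real.rpow_pos_of_pos hy0 _
  field_simp

theorem icn : ∃ δ C : ℝ, 0 < δ ∧ δ ≤ 1 / 4 ∧ 0 < C ∧ ∀ y : ℝ, 1 ≤ y →
      {I : Ideal (𝓞 K) | I ≠ ⊥ ∧ (Ideal.absNorm I : ℝ) ≤ y}.Finite ∧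
      |({I : Ideal (𝓞 K) | I ≠ ⊥ ∧ (Ideal.absNorm I : ℝ) ≤ y}.ncard : ℝ) -
        dedekindZeta_residue K * y| ≤ C * y ^ (1 - δ) := by
  classical
  obtain ⟨C, hC, hW⟩ := cmpW K
  obtain ⟨cnt, hcnt⟩ : ∃ cnt : ℝ → ℝ, cnt = fun y => ((FS K y).card : ℝ) := ⟨_, rfl⟩
  have hcnt' : ∀ y, cnt y = ({I : Ideal (𝓞 K) | I ≠ ⊥ ∧ (Ideal.absNorm I : ℝ) ≤ y}.ncard : ℝ) := by
    intro y
    rw [hcnt]
    show ((FS K y).card : ℝ) = ((SI K y).ncard : ℝ)
    rw [Set.ncard_eq_toFinset_card _ (fin_SI K y)]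
    rfl
  have hκ := dedekindZeta_residue_pos K
  have hlim : Tendsto (fun y : ℝ => cnt y / y) atTop (𝓝 (dedekindZeta_residue K)) := by
    have h1 := NumberField.Ideal.tendsto_norm_le_div_atTop₀ K
    rw [dedekindZeta_residue_def]
    refine h1.congr fun y => ?_
    congr 1
    rw [hcnt]
    show (Nat.card {I : (Ideal (𝓞 K))⁰ // (Ideal.absNorm (I : Ideal (𝓞 K)) : ℝ) ≤ y} : ℝ) =
      ((FS K y).card : ℝ)
    congr 1
    rw [← Nat.card_eq_finsetCard]
    refine Nat.card_congr ⟨fun I => ⟨I.1.1, ?_⟩, fun I => ⟨⟨I.1, ?_⟩, ?_⟩, fun I => rfl,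
      fun I => rfl⟩
    · rw [mem_FS]
      exact ⟨mem_nonZeroDivisors_iff_ne_zero.1 I.1.2, I.2⟩
    · exact mem_nonZeroDivisors_iff_ne_zero.2 ((mem_FS K y I.1).1 I.2).1
    · exact ((mem_FS K y I.1).1 I.2).2
  obtain ⟨C', hC', h⟩ := final (Module.finrank ℚ K) Module.finrank_pos (dedekindZeta_residue K) hκ
    cnt hlim (WR K) C hC hW
    (fun a b η y hab hη hy => by rw [hcnt]; exact up K a b η y hab hη hy)
    (fun a b η y hη hab hy => by rw [hcnt]; exact lo K a b η y hη hab hy)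
    ⟨cnt 2 + dedekindZeta_residue K * 2, by
      intro y hy hy2
      have h1 : cnt y ≤ cnt 2 := by
        rw [hcnt]
        show ((FS K y).card : ℝ) ≤ ((FS K 2).card : ℝ)
        exact_mod_cast Finset.card_le_card (FS_mono K hy2)
      have h2 : 0 ≤ cnt y := by
        rw [hcnt]
        exact Nat.cast_nonneg _
      have h3 : dedekindZeta_residue K * y ≤ dedekindZeta_residue K * 2 :=
        mul_le_mul_of_nonneg_left hy2 hκ.le
      have h4 : 0 ≤ dedekindZeta_residue K * y := by positivity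
      rw [abs_le]
      constructor <;> linarith⟩
  have hn : (1 : ℝ) ≤ Module.finrank ℚ K := by
    exact_mod_cast Module.finrank_pos (R := ℚ) (M := K)
  refine ⟨1 / (4 * (Module.finrank ℚ K : ℝ)), C', by positivity,
    one_div_le_one_div_of_le (by norm_num) (by linarith), hC', ?_⟩
  intro y hy
  refine ⟨fin_SI K y, ?_⟩
  rw [← hcnt']
  exact h y hy

end NF

end Pool.Agent.H23.NVK.IC

namespace Pool.Agent.H23.NVK

theorem pf_ICN : T_ICN := by
  intro k _ _ _
  exact IC.icn k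

end Pool.Agent.H23.NVK
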