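import Pool.Agent.H23.NVK.AsmM
import Pool.Agent.H23.NVK.ICN
import Pool.Agent.H78.NVK.AXK
import Pool.Agent.H68.NVK.M_BRG
import Pool.Agent.H68.NVK.M_CRK
import Pool.Agent.H39.NVK.M_TRM
import Pool.Agent.H11.NVK.EQD
import Pool.Agent.H10.NVK.SMC
import Pool.Agent.H35.NVK.M_FMA

/-!
# The two moments over the enlarged family: assembly of the parts M and F
-/

set_option autoImplicit false

open NumberField

namespace Pool.Agent.H23.NVK.Asm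

open Pool.Agent.H23.NVK

theorem c_BRG : T_BRG := Pool.Agent.H68.NVK.pf_BRG

theorem c_ICN : T_ICN := pf_ICN

theorem c_AXK : T_AXK := Pool.Agent.H78.NVK.pf_AXK c_BRG c_ICN

theorem c_EQD : T_EQD := Pool.Agent.H11.NVK.pf_EQD

theorem c_TRM : T_TRM := Pool.Agent.H39.NVK.pf_TRM c_BRG

theorem c_CRK : T_CRK := Pool.Agent.H68.NVK.pf_CRK c_CRR c_AXK c_EQD

theorem c_SMC
    (hNEL : ∀ (k : Type) [Field k] [NumberField k] [IsTotallyReal k], Pool.Agent.H89.NV.T_NEL k)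
    (hVCK : T_VCK) : T_SMC :=
  Pool.Agent.H10.NVK.pf_SMC hNEL c_AXK hVCK c_BRG c_TRM c_MNR c_EQD c_SSA c_MAI

theorem c_FMA : T_FMA := Pool.Agent.H35.NVK.pf_FMA c_AXK c_MU3 c_EQD

/-- parts M and F of the interface -/
theorem part_MF (hVCK : T_VCK)
    (hNEL : ∀ (k : Type) [Field k] [NumberField k] [IsTotallyReal k], Pool.Agent.H89.NV.T_NEL k)
    (k : Type) [Field k] [NumberField k] [IsTotallyReal k]
    (hAVG : Pool.Agent.H89.NV.T_AVG k) (hAFM : Pool.Agent.H89.NV.T_AFM k)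
    (hWDN : Pool.Agent.H89.NV.T_WDN k) (hUFC : Pool.Agent.H89.NV.T_UFC k)
    (hFMC : Pool.Agent.H89.NV.T_FMC k) :
    Pool.Agent.H89.NV.T_SM2 k ∧ Pool.Agent.H89.NV.T_FM1 k ∧ Pool.Agent.H89.NV.T_CRR k :=
  ⟨c_SMC hNEL hVCK k hAVG hWDN hUFC, c_FMA k hAFM hWDN hFMC, c_CRK k⟩

end Pool.Agent.H23.NVK.Asm
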