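import Pool.Agent.H25.HK.Targets

/-!
# Ideal counting with a power saving, part a: a partition of unity over the units
(board nvk_modules, T_ICN)
-/

set_option autoImplicit false

open NumberField NumberField.InfinitePlace NumberField.Units
  NumberField.Units.dirichletUnitTheorem MeasureTheory Set Filter
open scoped nonZeroDivisors ENNReal

namespace Pool.Agent.H23.NVK.IC

open Pool.Agent.H25.HK

/-- the tent function -/
noncomputable def tent (t : ℝ) : ℝ := max 0 (1 - |t|)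

theorem tent_nonneg (t : ℝ) : 0 ≤ tent t := le_max_left _ _

theorem tent_le (t : ℝ) : tent t ≤ 1 := max_le zero_le_one (by linarith [abs_nonneg t])

theorem tent_zero {t : ℝ} (h : 1 ≤ |t|) : tent t = 0 := max_eq_left (by linarith)

theorem tent_lt {t : ℝ} (h : tent t ≠ 0) : |t| < 1 := by
  by_contra hc
  exact h (tent_zero (not_lt.1 hc))

theorem tent_lip (s t : ℝ) : |tent s - tent t| ≤ |s - t| := by
  unfold tent
  refine le_trans (abs_max_sub_max_le_max _ _ _ _) ?_
  rw [sub_self, abs_zero, max_eq_right (abs_nonneg _)]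
  have : (1 - |s|) - (1 - |t|) = -(|s| - |t|) := by ring
  rw [this, abs_neg]
  exact abs_abs_sub_abs_le_abs_sub s t

theorem tent_sum (x : ℝ) : tent (x + ((-⌊x⌋ : ℤ) : ℝ)) + tent (x + ((-⌊x⌋ - 1 : ℤ) : ℝ)) = 1 := by
  have h0 := Int.fract_nonneg x
  have h1 := Int.fract_lt_one x
  have e : x = ⌊x⌋ + Int.fract x := (Int.floor_add_fract x).symm
  have e1 : x + ((-⌊x⌋ : ℤ) : ℝ) = Int.fract x := by push_cast; rw [Int.fract]; ring
  have e2 : x + ((-⌊x⌋ - 1 : ℤ) : ℝ) = Int.fract x - 1 := by push_cast; rw [Int.fract]; ring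
  rw [e1, e2]
  unfold tent
  rw [abs_of_nonneg h0, abs_of_nonpos (by linarith), max_eq_right (by linarith),
    max_eq_right (by linarith)]
  ring

theorem tent_out (x : ℝ) (m : ℤ) (h1 : m ≠ -⌊x⌋) (h2 : m ≠ -⌊x⌋ - 1) : tent (x + m) = 0 := by
  apply tent_zero
  have h0 := Int.floor_le x
  have h3 := Int.lt_floor_add_one x
  rcases lt_trichotomy m (-⌊x⌋) with h | h | h
  · have h4 : m ≤ -⌊x⌋ - 2 := by omega
    have h5 : (m : ℝ) ≤ -(⌊x⌋ : ℝ) - 2 := by exact_mod_cast h4
    rw [abs_of_nonpos (by linarith)]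
    linarith
  · exact absurd h h1
  · have h4 : -⌊x⌋ + 1 ≤ m := by omega
    have h5 : -(⌊x⌋ : ℝ) + 1 ≤ (m : ℝ) := by exact_mod_cast h4
    rw [abs_of_nonneg (by linarith)]
    linarith

section NF

variable (K : Type) [Field K] [NumberField K]

open scoped Classical in
/-- the real basis of the logarithmic space -/
noncomputable def Bs : Module.Basis (Fin (rank K)) ℝ (logSpace K) :=
  (basisUnitLattice K).ofZLatticeBasis ℝ (unitLattice K)

/-- the partition of unity -/
noncomputable def Ps (z : logSpace K) : ℝ := ∏ j, tent ((Bs K).repr z j)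

theorem Ps_nonneg (z : logSpace K) : 0 ≤ Ps K z := Finset.prod_nonneg fun _ _ => tent_nonneg _

theorem Ps_le (z : logSpace K) : Ps K z ≤ 1 :=
  Finset.prod_le_one (fun _ _ => tent_nonneg _) fun _ _ => tent_le _

open scoped Classical in
/-- the sum over the unit lattice -/
theorem Ps_sum (z : logSpace K) :
    ∑' l : unitLattice K, ENNReal.ofReal (Ps K (z + l)) = 1 := by
  obtain ⟨x, hx⟩ : ∃ x : Fin (rank K) → ℝ, x = fun j => (Bs K).repr z j := ⟨_, rfl⟩
  have h1 : ∀ l : unitLattice K, Ps K (z + l) =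
      ∏ j, tent (x j + (((basisUnitLattice K).repr l j : ℤ) : ℝ)) := by
    intro l
    unfold Ps
    refine Finset.prod_congr rfl fun j _ => ?_
    rw [map_add, Finsupp.add_apply, hx]
    have := (basisUnitLattice K).ofZLatticeBasis_repr_apply ℝ (unitLattice K) l j
    rw [show (Bs K).repr (l : logSpace K) j = (((basisUnitLattice K).repr l j : ℤ) : ℝ) from this]
  have h2 : ∑' l : unitLattice K, ENNReal.ofReal (Ps K (z + l)) =
      ∑' m : Fin (rank K) → ℤ, ENNReal.ofReal (∏ j, tent (x j + (m j : ℝ))) := by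
    rw [← ((basisUnitLattice K).equivFun.toEquiv).tsum_eq
      (fun m : Fin (rank K) → ℤ => ENNReal.ofReal (∏ j, tent (x j + (m j : ℝ))))]
    refine tsum_congr fun l => ?_
    rw [h1]
    rfl
  rw [h2, tsum_eq_sum (s := Fintype.piFinset fun j => ({-⌊x j⌋, -⌊x j⌋ - 1} : Finset ℤ))]
  · have h3 : ∀ m : Fin (rank K) → ℤ, ENNReal.ofReal (∏ j, tent (x j + (m j : ℝ))) =
        ∏ j, ENNReal.ofReal (tent (x j + (m j : ℝ))) := fun m =>
      ENNReal.ofReal_prod_of_nonneg fun j _ => tent_nonneg _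
    simp_rw [h3]
    have h4 := Finset.prod_univ_sum (fun j => ({-⌊x j⌋, -⌊x j⌋ - 1} : Finset ℤ))
      (fun j m => ENNReal.ofReal (tent (x j + (m : ℝ))))
    rw [← h4]
    refine Finset.prod_eq_one fun j _ => ?_
    rw [Finset.sum_pair (by omega), ← ENNReal.ofReal_add (tent_nonneg _) (tent_nonneg _),
      tent_sum, ENNReal.ofReal_one]
  · intro m hm
    rw [Fintype.mem_piFinset] at hm
    obtain ⟨j, hj⟩ := not_forall.1 hm
    rw [Finset.mem_insert, Finset.mem_singleton, not_or] at hj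
    rw [Finset.prod_eq_zero (Finset.mem_univ j) (tent_out (x j) (m j) hj.1 hj.2),
      ENNReal.ofReal_zero]

/-- the logarithm of the norm -/
noncomputable def ln (x : K) : ℝ := Real.log ((|Algebra.norm ℚ x| : ℚ) : ℝ)

/-- the unit coordinates of an element -/
noncomputable def lz (x : K) : logSpace K := fun w =>
  (w.1.mult : ℝ) * (Real.log (w.1 x) - ln K x / Module.finrank ℚ K)

theorem norm_unit (u : (𝓞 K)ˣ) : |Algebra.norm ℚ (u : K)| = 1 := by
  exact Units.norm K u

theorem ln_unit (u : (𝓞 K)ˣ) (x : K) : ln K ((u : K) * x) = ln K x := by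
  unfold ln
  rw [map_mul, abs_mul, norm_unit, one_mul]

theorem lz_unit (u : (𝓞 K)ˣ) {x : K} (hx : x ≠ 0) :
    lz K ((u : K) * x) = lz K x + logEmbedding K (Additive.ofMul u) := by
  funext w
  rw [Pi.add_apply, logEmbedding_component]
  unfold lz
  have hu : w.1 (u : K) ≠ 0 := (map_ne_zero _).2 (by simp)
  rw [ln_unit, map_mul, Real.log_mul hu ((map_ne_zero _).2 hx)]
  ring

/-- the trapezoid -/
noncomputable def tr (a b η s : ℝ) : ℝ := max 0 (min 1 (min ((s - a) / η) ((b - s) / η)))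

open scoped Classical in
/-- the weight -/
noncomputable def ph (a b η Y : ℝ) (x : K) : ℝ :=
  if x = 0 then 0 else Ps K (lz K x) * tr a b η (ln K x - Real.log Y)

theorem tr_nonneg (a b η s : ℝ) : 0 ≤ tr a b η s := le_max_left _ _

theorem tr_le (a b η s : ℝ) : tr a b η s ≤ 1 := max_le zero_le_one (min_le_left _ _)

theorem ph_nonneg (a b η Y : ℝ) (x : K) : 0 ≤ ph K a b η Y x := by
  unfold ph
  split_ifs
  · exact le_rfl
  · exact mul_nonneg (Ps_nonneg K _) (tr_nonneg _ _ _ _)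

theorem ph_le (a b η Y : ℝ) (x : K) : ph K a b η Y x ≤ 1 := by
  unfold ph
  split_ifs
  · exact zero_le_one
  · exact mul_le_one₀ (Ps_le K _) (tr_nonneg _ _ _ _) (tr_le _ _ _ _)

/-- unfolding -/
theorem unfold_sum (hBI : T_BI) (hUN : T_UN) (M : FI K) (hM : M ≠ 0) (a b η Y : ℝ)
    (hMpos : 0 < ((FractionalIdeal.absNorm M : ℚ) : ℝ)) :
    ∑' x : {x : K // x ∈ M}, ENNReal.ofReal (ph K a b η Y x) =
      (torsionOrder K : ℝ≥0∞) * ∑' I : {I : Ideal (𝓞 K) // Pri K M I},
        ENNReal.ofReal (tr a b η (Real.log (Ideal.absNorm I.1 : ℝ) +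
          Real.log ((FractionalIdeal.absNorm M : ℚ) : ℝ) - Real.log Y)) := by
  obtain ⟨X, hX1, hX2, hX3⟩ := hBI K M hM
  obtain ⟨g, hg⟩ : ∃ g : {I : Ideal (𝓞 K) // Pri K M I} × (𝓞 K)ˣ → {x : K // x ∈ M},
      g = fun p => ⟨(p.2 : K) * X p.1, hX2 p.1 p.2⟩ := ⟨_, rfl⟩
  have hgv : ∀ p, (g p : K) = (p.2 : K) * X p.1 := fun p => by rw [hg]
  have hu0 : ∀ u : (𝓞 K)ˣ, (u : K) ≠ 0 := fun u => by simp
  have hg0 : ∀ p, (g p : K) ≠ 0 := fun p => by
    rw [hgv]
    exact mul_ne_zero (hu0 _) (hX1 _).1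
  have hinj : Function.Injective g := by
    intro p p' h
    have h1 : (g p : K) = g p' := by rw [h]
    obtain ⟨q, -, hq⟩ := hX3 (g p) (g p).2 (hg0 p)
    rw [hq p (hgv p), hq p' (by rw [h1, hgv])]
  rw [← hinj.tsum_eq, ENNReal.tsum_prod' , ← ENNReal.tsum_mul_left]
  · refine tsum_congr fun I => ?_
    have h1 : ∀ u : (𝓞 K)ˣ, ENNReal.ofReal (ph K a b η Y (g (I, u))) =
        ENNReal.ofReal (tr a b η (Real.log (Ideal.absNorm I.1 : ℝ) +
          Real.log ((FractionalIdeal.absNorm M : ℚ) : ℝ) - Real.log Y)) *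
        ENNReal.ofReal (Ps K (lz K (X I) + logEmbedding K (Additive.ofMul u))) := by
      intro u
      rw [← ENNReal.ofReal_mul (tr_nonneg _ _ _ _)]
      unfold ph
      rw [if_neg (hg0 _), hgv, lz_unit K u (hX1 I).1, ln_unit, mul_comm]
      congr 3
      unfold ln
      rw [(hX1 I).2, Real.log_mul _ hMpos.ne']
      have : Ideal.absNorm I.1 ≠ 0 := fun h => I.2.1 (Ideal.absNorm_eq_zero_iff.1 h)
      exact_mod_cast this
    simp_rw [h1]
    rw [ENNReal.tsum_mul_left, hUN K (fun l => ENNReal.ofReal (Ps K (lz K (X I) + l))), Ps_sum,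
      mul_one, mul_comm]
  · intro x hx
    have hx0 : (x : K) ≠ 0 := by
      intro h
      apply hx
      show ENNReal.ofReal (ph K a b η Y x) = 0
      unfold ph
      rw [if_pos h, ENNReal.ofReal_zero]
    obtain ⟨p, hp, -⟩ := hX3 x x.2 hx0
    exact ⟨p, Subtype.ext (by rw [hgv]; exact hp.symm)⟩

end NF

end Pool.Agent.H23.NVK.IC
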