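import Pool.Agent.H23.NVK.ICa

/-!
# Ideal counting with a power saving, part b: the weight varies slowly
(board nvk_modules, T_ICN)
-/

set_option autoImplicit false

open NumberField NumberField.InfinitePlace NumberField.Units
  NumberField.Units.dirichletUnitTheorem MeasureTheory Set Filter
open scoped nonZeroDivisors ENNReal

namespace Pool.Agent.H23.NVK.IC

open Pool.Agent.H25.HK

theorem tr_lip {a b η : ℝ} (hη : 0 < η) (s t : ℝ) : |tr a b η s - tr a b η t| ≤ |s - t| / η := by
  have hn : 0 ≤ |s - t| / η := by positivity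
  unfold tr
  refine le_trans (abs_max_sub_max_le_max _ _ _ _) (max_le ?_ ?_)
  · rw [sub_self, abs_zero]
    exact hn
  refine le_trans (abs_min_sub_min_le_max _ _ _ _) (max_le ?_ ?_)
  · rw [sub_self, abs_zero]
    exact hn
  refine le_trans (abs_min_sub_min_le_max _ _ _ _) (max_le ?_ ?_)
  · rw [← sub_div, abs_div, abs_of_pos hη]
    have : s - a - (t - a) = s - t := by ring
    rw [this]
  · rw [← sub_div, abs_div, abs_of_pos hη]
    have : b - s - (b - t) = -(s - t) := by ring
    rw [this, abs_neg]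

theorem tr_supp {a b η s : ℝ} (hη : 0 < η) (h : tr a b η s ≠ 0) : a < s ∧ s < b := by
  constructor
  · by_contra hc
    apply h
    have h1 : (s - a) / η ≤ 0 := div_nonpos_of_nonpos_of_nonneg (by linarith) hη.le
    exact max_eq_left (le_trans (min_le_right _ _) (le_trans (min_le_left _ _) h1))
  · by_contra hc
    apply h
    have h1 : (b - s) / η ≤ 0 := div_nonpos_of_nonpos_of_nonneg (by linarith) hη.le
    exact max_eq_left (le_trans (min_le_right _ _) (le_trans (min_le_right _ _) h1))

theorem prod_lip {ι : Type*} (S : Finset ι) (f g : ι → ℝ) (hf0 : ∀ i, 0 ≤ f i) (hf1 : ∀ i, f i ≤ 1)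
    (hg0 : ∀ i, 0 ≤ g i) (hg1 : ∀ i, g i ≤ 1) :
    |∏ i ∈ S, f i - ∏ i ∈ S, g i| ≤ ∑ i ∈ S, |f i - g i| := by
  classical
  induction S using Finset.induction_on with
  | empty => simp
  | insert i S hi ih =>
    rw [Finset.prod_insert hi, Finset.prod_insert hi, Finset.sum_insert hi]
    have h1 : f i * ∏ j ∈ S, f j - g i * ∏ j ∈ S, g j =
        (f i - g i) * ∏ j ∈ S, f j + g i * (∏ j ∈ S, f j - ∏ j ∈ S, g j) := by ring
    have h2 : |∏ j ∈ S, f j| ≤ 1 := by
      rw [abs_of_nonneg (Finset.prod_nonneg fun j _ => hf0 j)]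
      exact Finset.prod_le_one (fun j _ => hf0 j) fun j _ => hf1 j
    have h3 : |g i| ≤ 1 := by
      rw [abs_of_nonneg (hg0 i)]
      exact hg1 i
    rw [h1]
    refine le_trans (abs_add_le _ _) (add_le_add ?_ ?_)
    · rw [abs_mul]
      exact mul_le_of_le_one_right (abs_nonneg _) h2
    · rw [abs_mul]
      exact le_trans (mul_le_of_le_one_left (abs_nonneg _) h3) ih

section NF

variable (K : Type) [Field K] [NumberField K]

theorem Ps_lip : ∃ C : ℝ, 0 ≤ C ∧ ∀ (z z' : logSpace K) (D : ℝ), (∀ w, |z w - z' w| ≤ D) →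
    |Ps K z - Ps K z'| ≤ C * D := by
  classical
  refine ⟨∑ j : Fin (rank K), ∑ w, |(Bs K).coord j (fun w' => if w = w' then 1 else 0)|,
    Finset.sum_nonneg fun _ _ => Finset.sum_nonneg fun _ _ => abs_nonneg _, ?_⟩
  intro z z' D hD
  unfold Ps
  refine le_trans (prod_lip _ _ _ (fun _ => tent_nonneg _) (fun _ => tent_le _)
    (fun _ => tent_nonneg _) (fun _ => tent_le _)) ?_
  rw [Finset.sum_mul]
  refine Finset.sum_le_sum fun j _ => ?_
  refine le_trans (tent_lip _ _) ?_
  have h1 : (Bs K).repr z j - (Bs K).repr z' j = (Bs K).coord j (z - z') := by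
    rw [map_sub]
    rfl
  rw [h1, LinearMap.pi_apply_eq_sum_univ, Finset.sum_mul]
  refine le_trans (Finset.abs_sum_le_sum_abs _ _) (Finset.sum_le_sum fun w _ => ?_)
  rw [smul_eq_mul, abs_mul, mul_comm]
  exact mul_le_mul_of_nonneg_left (hD w) (abs_nonneg _)

theorem Ps_supp : ∃ C : ℝ, 0 ≤ C ∧ ∀ z : logSpace K, Ps K z ≠ 0 → ∀ w, |z w| ≤ C := by
  classical
  refine ⟨∑ j : Fin (rank K), ∑ w, |Bs K j w|,
    Finset.sum_nonneg fun _ _ => Finset.sum_nonneg fun _ _ => abs_nonneg _, ?_⟩
  intro z hz w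
  have h1 : ∀ j, |(Bs K).repr z j| ≤ 1 := by
    intro j
    refine (tent_lt fun h => hz ?_).le
    exact Finset.prod_eq_zero (Finset.mem_univ j) h
  have h2 : z w = ∑ j, (Bs K).repr z j * Bs K j w := by
    conv_lhs => rw [← (Bs K).sum_repr z]
    rw [Finset.sum_apply]
    rfl
  rw [h2]
  refine le_trans (Finset.abs_sum_le_sum_abs _ _) (Finset.sum_le_sum fun j _ => ?_)
  rw [abs_mul]
  refine le_trans (mul_le_of_le_one_left (abs_nonneg _) (h1 j)) ?_
  exact Finset.single_le_sum (f := fun w => |Bs K j w|) (fun _ _ => abs_nonneg _)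
    (Finset.mem_univ w)

theorem ln_sum {x : K} (hx : x ≠ 0) :
    ln K x = ∑ v : InfinitePlace K, (v.mult : ℝ) * Real.log (v x) := by
  unfold ln
  rw [← InfinitePlace.prod_eq_abs_norm, Real.log_prod]
  · exact Finset.sum_congr rfl fun v _ => Real.log_pow _ _
  · intro v _
    exact pow_ne_zero _ ((map_ne_zero v).2 hx)

theorem mult_sum : ∑ v : InfinitePlace K, (v.mult : ℝ) = Module.finrank ℚ K := by
  exact_mod_cast sum_mult_eq (K := K)

theorem mult_ge (v : InfinitePlace K) : (1 : ℝ) ≤ v.mult := by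
  exact_mod_cast v.mult_pos

/-- the support of the weight -/
theorem ph_supp : ∃ C : ℝ, 0 ≤ C ∧ ∀ (a b η Y : ℝ) (x : K), -2 ≤ a → b ≤ 2 → 0 < η →
    ph K a b η Y x ≠ 0 → x ≠ 0 ∧ ∀ v : InfinitePlace K,
      |Real.log (v x) - Real.log Y / Module.finrank ℚ K| ≤ C := by
  classical
  obtain ⟨C, hC, hC2⟩ := Ps_supp K
  obtain ⟨N, hN⟩ : ∃ N : ℝ, N = (Fintype.card {w : InfinitePlace K // w ≠ w₀} : ℝ) := ⟨_, rfl⟩
  have hN0 : 0 ≤ N := by rw [hN]; exact Nat.cast_nonneg _
  have hn : (1 : ℝ) ≤ Module.finrank ℚ K := by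
    exact_mod_cast Module.finrank_pos (R := ℚ) (M := K)
  refine ⟨(1 + N) * C + 2, by positivity, ?_⟩
  intro a b η Y x ha hb hη hph
  have hx : x ≠ 0 := by
    intro h
    apply hph
    unfold ph
    rw [if_pos h]
  refine ⟨hx, ?_⟩
  unfold ph at hph
  rw [if_neg hx] at hph
  have h1 := hC2 _ (left_ne_zero_of_mul hph)
  obtain ⟨h2, h3⟩ := tr_supp hη (right_ne_zero_of_mul hph)
  obtain ⟨n, hnd⟩ : ∃ n : ℝ, n = Module.finrank ℚ K := ⟨_, rfl⟩
  rw [← hnd] at hn ⊢
  have h4 : |ln K x / n - Real.log Y / n| ≤ 2 := by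
    have hn0 : 0 < n := by linarith
    rw [← sub_div, abs_div, abs_of_pos hn0, div_le_iff₀ hn0, abs_le]
    constructor <;> nlinarith
  -- all places
  have h5 : ∀ v : InfinitePlace K, |Real.log (v x) - ln K x / n| ≤ (1 + N) * C := by
    have h6 : ∀ w : {w : InfinitePlace K // w ≠ w₀}, |Real.log (w.1 x) - ln K x / n| ≤ C := by
      intro w
      have h7 := h1 w
      unfold lz at h7
      rw [← hnd, abs_mul, abs_of_nonneg (Nat.cast_nonneg _)] at h7
      refine le_trans ?_ h7
      exact le_mul_of_one_le_left (abs_nonneg _) (mult_ge K w.1)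
    intro v
    by_cases hv : v = w₀
    · subst hv
      have h8 : ∑ v : InfinitePlace K, (v.mult : ℝ) * (Real.log (v x) - ln K x / n) = 0 := by
        simp_rw [mul_sub]
        rw [Finset.sum_sub_distrib, ← ln_sum K hx, ← Finset.sum_mul, mult_sum, ← hnd]
        field_simp
        ring
      have h9 := Fintype.sum_subtype_add_sum_subtype (fun v : InfinitePlace K => v ≠ w₀)
        (fun v : InfinitePlace K => (v.mult : ℝ) * (Real.log (v x) - ln K x / n))
      rw [h8] at h9
      have h10 : ∑ v : {v : InfinitePlace K // ¬ (v ≠ w₀)}, ((v : InfinitePlace K).mult : ℝ) *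
          (Real.log ((v : InfinitePlace K) x) - ln K x / n) =
          ((w₀ : InfinitePlace K).mult : ℝ) * (Real.log ((w₀ : InfinitePlace K) x) - ln K x / n) := by
        have : Unique {v : InfinitePlace K // ¬ (v ≠ w₀)} :=
          ⟨⟨⟨w₀, not_not.2 rfl⟩⟩, fun v => Subtype.ext (not_not.1 v.2)⟩
        rw [Fintype.sum_unique]
        have h11 : ((default : {v : InfinitePlace K // ¬ (v ≠ w₀)}) : InfinitePlace K) = w₀ :=
          not_not.1 (default : {v : InfinitePlace K // ¬ (v ≠ w₀)}).2
        rw [h11]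
      rw [h10] at h9
      have h12 : |∑ v : {v : InfinitePlace K // v ≠ w₀}, ((v : InfinitePlace K).mult : ℝ) *
          (Real.log ((v : InfinitePlace K) x) - ln K x / n)| ≤ N * C := by
        refine le_trans (Finset.abs_sum_le_sum_abs _ _) ?_
        have : ∀ w ∈ (Finset.univ : Finset {v : InfinitePlace K // v ≠ w₀}),
            |((w : InfinitePlace K).mult : ℝ) * (Real.log ((w : InfinitePlace K) x) - ln K x / n)| ≤
              C := by
          intro w _
          have h7 := h1 w
          unfold lz at h7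
          rw [← hnd] at h7
          exact h7
        refine le_trans (Finset.sum_le_card_nsmul _ _ _ this) ?_
        rw [nsmul_eq_mul, Finset.card_univ, hN]
      have h13 : |((w₀ : InfinitePlace K).mult : ℝ) *
          (Real.log ((w₀ : InfinitePlace K) x) - ln K x / n)| ≤ N * C := by
        have : ((w₀ : InfinitePlace K).mult : ℝ) *
          (Real.log ((w₀ : InfinitePlace K) x) - ln K x / n) =
          -∑ v : {v : InfinitePlace K // v ≠ w₀}, ((v : InfinitePlace K).mult : ℝ) *
          (Real.log ((v : InfinitePlace K) x) - ln K x / n) := by linarith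
        rw [this, abs_neg]
        exact h12
      rw [abs_mul, abs_of_nonneg (Nat.cast_nonneg _)] at h13
      have h14 := le_mul_of_one_le_left
        (abs_nonneg (Real.log ((w₀ : InfinitePlace K) x) - ln K x / n)) (mult_ge K w₀)
      nlinarith
    · have := h6 ⟨v, hv⟩
      nlinarith
  intro v
  have h6 := abs_add_le (Real.log (v x) - ln K x / n) (ln K x / n - Real.log Y / n)
  have h7 : Real.log (v x) - ln K x / n + (ln K x / n - Real.log Y / n) =
      Real.log (v x) - Real.log Y / n := by ring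
  rw [h7] at h6
  linarith [h5 v]

/-- the weight varies slowly in logarithmic coordinates -/
theorem ph_lip : ∃ C : ℝ, 0 ≤ C ∧ ∀ (a b η Y : ℝ) (x x' : K) (D : ℝ), 0 < η → η ≤ 1 → x ≠ 0 →
    x' ≠ 0 → (∀ v : InfinitePlace K, |Real.log (v x) - Real.log (v x')| ≤ D) →
      |ph K a b η Y x - ph K a b η Y x'| ≤ C * D / η := by
  classical
  obtain ⟨C, hC, hC2⟩ := Ps_lip K
  obtain ⟨n, hnd⟩ : ∃ n : ℝ, n = Module.finrank ℚ K := ⟨_, rfl⟩
  have hn : (1 : ℝ) ≤ n := by
    rw [hnd]
    exact_mod_cast Module.finrank_pos (R := ℚ) (M := K)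
  refine ⟨C * (2 * n) + n, by positivity, ?_⟩
  intro a b η Y x x' D hη hη1 hx hx' hD
  have hD0 : 0 ≤ D := le_trans (abs_nonneg _) (hD w₀)
  have h1 : |ln K x - ln K x'| ≤ n * D := by
    rw [ln_sum K hx, ln_sum K hx', ← Finset.sum_sub_distrib]
    refine le_trans (Finset.abs_sum_le_sum_abs _ _) ?_
    rw [hnd, ← mult_sum, Finset.sum_mul]
    refine Finset.sum_le_sum fun v _ => ?_
    rw [← mul_sub, abs_mul, abs_of_nonneg (Nat.cast_nonneg _)]
    exact mul_le_mul_of_nonneg_left (hD v) (Nat.cast_nonneg _)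
  have hmn : ∀ v : InfinitePlace K, (v.mult : ℝ) ≤ n := by
    intro v
    rw [hnd, ← mult_sum]
    exact Finset.single_le_sum (f := fun v : InfinitePlace K => (v.mult : ℝ))
      (fun _ _ => Nat.cast_nonneg _) (Finset.mem_univ v)
  have h2 : ∀ w, |lz K x w - lz K x' w| ≤ 2 * n * D := by
    intro w
    unfold lz
    rw [← mul_sub, abs_mul, abs_of_nonneg (Nat.cast_nonneg _), ← hnd]
    have h3 : |Real.log (w.1 x) - ln K x / n - (Real.log (w.1 x') - ln K x' / n)| ≤ 2 * D := by
      have h4 : Real.log (w.1 x) - ln K x / n - (Real.log (w.1 x') - ln K x' / n) =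
        (Real.log (w.1 x) - Real.log (w.1 x')) - (ln K x - ln K x') / n := by ring
      rw [h4]
      have h5 : |(ln K x - ln K x') / n| ≤ D := by
        have hn0 : 0 < n := by linarith
        rw [abs_div, abs_of_pos hn0, div_le_iff₀ hn0, mul_comm]
        exact h1
      have h6 := abs_sub (Real.log (w.1 x) - Real.log (w.1 x')) ((ln K x - ln K x') / n)
      linarith [hD w.1]
    calc (w.1.mult : ℝ) * |Real.log (w.1 x) - ln K x / n - (Real.log (w.1 x') - ln K x' / n)|
        ≤ n * (2 * D) := mul_le_mul (hmn _) h3 (abs_nonneg _) (by linarith)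
      _ = 2 * n * D := by ring
  have h3 := hC2 _ _ _ h2
  have h4 : |tr a b η (ln K x - Real.log Y) - tr a b η (ln K x' - Real.log Y)| ≤ n * D / η := by
    refine le_trans (tr_lip hη _ _) ?_
    have : ln K x - Real.log Y - (ln K x' - Real.log Y) = ln K x - ln K x' := by ring
    rw [this]
    exact div_le_div_of_nonneg_right h1 hη.le
  unfold ph
  rw [if_neg hx, if_neg hx']
  have h5 : Ps K (lz K x) * tr a b η (ln K x - Real.log Y) -
      Ps K (lz K x') * tr a b η (ln K x' - Real.log Y) =
      (Ps K (lz K x) - Ps K (lz K x')) * tr a b η (ln K x - Real.log Y) +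
      Ps K (lz K x') * (tr a b η (ln K x - Real.log Y) - tr a b η (ln K x' - Real.log Y)) := by ring
  rw [h5]
  have h6 : |tr a b η (ln K x - Real.log Y)| ≤ 1 := by
    rw [abs_of_nonneg (tr_nonneg _ _ _ _)]
    exact tr_le _ _ _ _
  have h7 : |Ps K (lz K x')| ≤ 1 := by
    rw [abs_of_nonneg (Ps_nonneg K _)]
    exact Ps_le K _
  have h8 : C * (2 * n * D) ≤ C * (2 * n * D) / η := by
    rw [le_div_iff₀ hη]
    exact mul_le_of_le_one_right (by positivity) hη1
  calc _ ≤ |(Ps K (lz K x) - Ps K (lz K x')) * tr a b η (ln K x - Real.log Y)| +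
      |Ps K (lz K x') * (tr a b η (ln K x - Real.log Y) - tr a b η (ln K x' - Real.log Y))| :=
        abs_add_le _ _
    _ ≤ C * (2 * n * D) + n * D / η := by
        rw [abs_mul, abs_mul]
        exact add_le_add (le_trans (mul_le_of_le_one_right (abs_nonneg _) h6) h3)
          (le_trans (mul_le_of_le_one_left (abs_nonneg _) h7) h4)
    _ ≤ C * (2 * n * D) / η + n * D / η := by linarith
    _ = _ := by ring

theorem pl_add (v : InfinitePlace K) (p q : K) : v (p + q) ≤ v p + v q := v.1.add_le p q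

theorem pl_sub (v : InfinitePlace K) (p q : K) : v (p - q) = v (q - p) := v.1.map_sub p q

theorem log_close {p q A m : ℝ} (hm : 0 < m) (hp : m ≤ p) (hq : m ≤ q) (h : |p - q| ≤ A) :
    |Real.log p - Real.log q| ≤ A / m := by
  have hp0 : 0 < p := lt_of_lt_of_le hm hp
  have hq0 : 0 < q := lt_of_lt_of_le hm hq
  have hA : 0 ≤ A := le_trans (abs_nonneg _) h
  obtain ⟨h1, h2⟩ := abs_le.1 h
  rw [abs_le]
  constructor
  · have h3 := Real.log_le_sub_one_of_pos (div_pos hq0 hp0)
    rw [Real.log_div hq0.ne' hp0.ne'] at h3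
    have h4 : q / p - 1 ≤ A / m := by
      have : q / p - 1 = (q - p) / p := by field_simp
      rw [this]
      calc (q - p) / p ≤ A / p := div_le_div_of_nonneg_right (by linarith) hp0.le
        _ ≤ A / m := div_le_div_of_nonneg_left hA hm hp
    linarith
  · have h3 := Real.log_le_sub_one_of_pos (div_pos hp0 hq0)
    rw [Real.log_div hp0.ne' hq0.ne'] at h3
    have h4 : p / q - 1 ≤ A / m := by
      have : p / q - 1 = (p - q) / q := by field_simp
      rw [this]
      calc (p - q) / q ≤ A / q := div_le_div_of_nonneg_right (by linarith) hq0.le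
        _ ≤ A / m := div_le_div_of_nonneg_left hA hm hq
    linarith

/-- differences of the weight -/
theorem ph_diff (A : ℝ) (hA : 0 ≤ A) : ∃ C : ℝ, 0 ≤ C ∧ ∀ (a b η Y : ℝ) (p q : K), -2 ≤ a → b ≤ 2 →
    0 < η → η ≤ 1 → 0 < Y → (∀ v : InfinitePlace K, v (p - q) ≤ A) →
      |ph K a b η Y p - ph K a b η Y q| ≤ C / (η * Y ^ (1 / (Module.finrank ℚ K : ℝ))) := by
  obtain ⟨C₀, hC₀, hs⟩ := ph_supp K
  obtain ⟨C₁, hC₁, hl⟩ := ph_lip K
  obtain ⟨n, hnd⟩ : ∃ n : ℝ, n = Module.finrank ℚ K := ⟨_, rfl⟩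
  have hn : (1 : ℝ) ≤ n := by
    rw [hnd]
    exact_mod_cast Module.finrank_pos (R := ℚ) (M := K)
  obtain ⟨c, hc⟩ : ∃ c : ℝ, c = Real.exp (-C₀) := ⟨_, rfl⟩
  have hc0 : 0 < c := by rw [hc]; exact Real.exp_pos _
  refine ⟨(1 + C₁) * (2 * A / c), by positivity, ?_⟩
  -- one sided version
  have key : ∀ (a b η Y : ℝ) (p q : K), -2 ≤ a → b ≤ 2 → 0 < η → η ≤ 1 → 0 < Y →
      (∀ v : InfinitePlace K, v (p - q) ≤ A) → ph K a b η Y p ≠ 0 →
      |ph K a b η Y p - ph K a b η Y q| ≤ (1 + C₁) * (2 * A / c) / (η * Y ^ (1 / n)) := by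
    intro a b η Y p q ha hb hη hη1 hY hv hp
    obtain ⟨hp0, hp1⟩ := hs a b η Y p ha hb hη hp
    obtain ⟨T, hT⟩ : ∃ T : ℝ, T = Y ^ (1 / n) := ⟨_, rfl⟩
    have hT0 : 0 < T := by rw [hT]; exact Real.rpow_pos_of_pos hY _
    have hlT : Real.log T = Real.log Y / n := by
      rw [hT, Real.log_rpow hY]
      ring
    rw [← hT]
    have hvp : ∀ v : InfinitePlace K, c * T ≤ v p := by
      intro v
      have h1 := (abs_le.1 (hp1 v)).1
      rw [← hnd, ← hlT] at h1
      have hvp0 : 0 < v p := (InfinitePlace.pos_iff).2 hp0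
      have h2 : Real.log (c * T) ≤ Real.log (v p) := by
        rw [Real.log_mul hc0.ne' hT0.ne', hc, Real.log_exp]
        linarith
      exact (Real.log_le_log_iff (by positivity) hvp0).1 h2
    have hηT : 0 < η * T := by positivity
    rcases le_or_gt (c * T) (2 * A) with h | h
    · have h1 : |ph K a b η Y p - ph K a b η Y q| ≤ 1 := by
        have e1 := ph_nonneg K a b η Y p
        have e2 := ph_nonneg K a b η Y q
        have e3 := ph_le K a b η Y p
        have e4 := ph_le K a b η Y q
        rw [abs_le]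
        constructor <;> linarith
      refine le_trans h1 ?_
      rw [le_div_iff₀ hηT, one_mul]
      have h2 : T ≤ 2 * A / c := by
        rw [le_div_iff₀ hc0, mul_comm]
        exact h
      have h3 : η * T ≤ T := mul_le_of_le_one_left hT0.le hη1
      have h4 : 0 ≤ C₁ * (2 * A / c) := by positivity
      linarith
    · have hvq : ∀ v : InfinitePlace K, c * T / 2 ≤ v q := by
        intro v
        have h1 : v p ≤ v (p - q) + v q := by
          have := pl_add K v (p - q) q
          rw [sub_add_cancel] at this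
          exact this
        have h2 := hv v
        have h3 := hvp v
        linarith
      have hq0 : q ≠ 0 := by
        intro h0
        have h1 := hvq w₀
        rw [h0, map_zero] at h1
        have : 0 < c * T := by positivity
        linarith
      have hm : 0 < c * T / 2 := by positivity
      have h1 := hl a b η Y p q (A / (c * T / 2)) hη hη1 hp0 hq0 (by
        intro v
        refine log_close hm (by linarith [hvp v]) (hvq v) ?_
        refine le_trans ?_ (hv v)
        rw [abs_le]
        constructor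
        · have := pl_add K v (q - p) p
          rw [sub_add_cancel, pl_sub] at this
          linarith
        · have := pl_add K v (p - q) q
          rw [sub_add_cancel] at this
          linarith)
      refine le_trans h1 ?_
      have h2 : C₁ * (A / (c * T / 2)) / η = C₁ * (2 * A / c) / (η * T) := by
        field_simp
      rw [h2]
      refine div_le_div_of_nonneg_right ?_ hηT.le
      have : 0 ≤ 2 * A / c := by positivity
      nlinarith
  intro a b η Y p q ha hb hη hη1 hY hv
  rw [← hnd]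
  by_cases hp : ph K a b η Y p = 0
  · by_cases hq : ph K a b η Y q = 0
    · rw [hp, hq, sub_zero, abs_zero]
      positivity
    · rw [abs_sub_comm]
      exact key a b η Y q p ha hb hη hη1 hY (fun v => by rw [pl_sub]; exact hv v) hq
  · exact key a b η Y p q ha hb hη hη1 hY hv hp

end NF

end Pool.Agent.H23.NVK.IC
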