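import Pool.Agent.H23.NVK.ICb

/-!
# Ideal counting with a power saving, part c: comparison of a lattice with its double
(board nvk_modules, T_ICN)
-/

set_option autoImplicit false

open NumberField NumberField.InfinitePlace NumberField.Units
  NumberField.Units.dirichletUnitTheorem MeasureTheory Set Filter
open scoped nonZeroDivisors ENNReal

namespace Pool.Agent.H23.NVK.IC

open Pool.Agent.H25.HK

section NF

variable (K : Type) [Field K] [NumberField K]

theorem pl_two (v : InfinitePlace K) : v (2 : K) = 2 := by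
  rw [← InfinitePlace.norm_embedding_eq v 2, map_ofNat]
  simp

theorem ln_two {x : K} (hx : x ≠ 0) :
    ln K (2 * x) = Module.finrank ℚ K * Real.log 2 + ln K x := by
  have h2 : (2 : K) * x ≠ 0 := mul_ne_zero two_ne_zero hx
  rw [ln_sum K h2, ln_sum K hx, ← mult_sum, Finset.sum_mul, ← Finset.sum_add_distrib]
  refine Finset.sum_congr rfl fun v _ => ?_
  rw [map_mul, pl_two, Real.log_mul two_ne_zero ((map_ne_zero v).2 hx)]
  ring

theorem ph_two (a b η Y : ℝ) (hY : 0 < Y) (x : K) :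
    ph K a b η (2 ^ (Module.finrank ℚ K) * Y) (2 * x) = ph K a b η Y x := by
  have hn : (Module.finrank ℚ K : ℝ) ≠ 0 := by
    exact_mod_cast (Module.finrank_pos (R := ℚ) (M := K)).ne'
  unfold ph
  by_cases hx : x = 0
  · rw [if_pos hx, if_pos (by rw [hx, mul_zero])]
  · rw [if_neg hx, if_neg (mul_ne_zero two_ne_zero hx)]
    have h1 : lz K (2 * x) = lz K x := by
      funext w
      unfold lz
      rw [ln_two K hx, map_mul, pl_two, Real.log_mul two_ne_zero ((map_ne_zero _).2 hx)]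
      field_simp
      ring
    have h2 : ln K (2 * x) - Real.log (2 ^ (Module.finrank ℚ K) * Y) = ln K x - Real.log Y := by
      rw [ln_two K hx, Real.log_mul (by positivity) hY.ne', Real.log_pow]
      ring
    rw [h1, h2]

/-- the vector with the given coordinates -/
noncomputable def vec {ι : Type} [Fintype ι] (β : ι → K) (m : ι → ℤ) : K := ∑ i, m i • β i

theorem vec_add {ι : Type} [Fintype ι] (β : ι → K) (m m' : ι → ℤ) :
    vec K β (m + m') = vec K β m + vec K β m' := by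
  unfold vec
  rw [← Finset.sum_add_distrib]
  exact Finset.sum_congr rfl fun i _ => by rw [Pi.add_apply, add_smul]

theorem vec_two {ι : Type} [Fintype ι] (β : ι → K) (m : ι → ℤ) :
    vec K β (2 * m) = 2 * vec K β m := by
  unfold vec
  rw [Finset.mul_sum]
  refine Finset.sum_congr rfl fun i _ => ?_
  rw [Pi.mul_apply, zsmul_eq_mul, zsmul_eq_mul]
  push_cast
  simp
  ring

/-- the coordinates are bounded by the absolute values -/
theorem coord_le {ι : Type} [Fintype ι] [DecidableEq ι] (β β' : Module.Basis ι ℚ K)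
    (hd : ∀ i j, Algebra.trace ℚ K (β i * β' j) = if i = j then 1 else 0) :
    ∃ C : ℝ, 0 ≤ C ∧ ∀ (m : ι → ℤ) (B : ℝ), (∀ v : InfinitePlace K, v (vec K β m) ≤ B) →
      ∀ j, |(m j : ℝ)| ≤ C * B := by
  classical
  refine ⟨∑ j, ∑ σ : K →ₐ[ℚ] ℂ, ‖σ (β' j)‖,
    Finset.sum_nonneg fun _ _ => Finset.sum_nonneg fun _ _ => norm_nonneg _, ?_⟩
  intro m B hB j
  have hB0 : 0 ≤ B := le_trans (apply_nonneg _ _) (hB w₀)
  have h1 : Algebra.trace ℚ K (vec K β m * β' j) = (m j : ℚ) := by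
    unfold vec
    rw [Finset.sum_mul, map_sum, Finset.sum_eq_single j]
    · rw [smul_mul_assoc, map_zsmul, hd, if_pos rfl, zsmul_eq_mul, mul_one]
    · intro i _ hij
      rw [smul_mul_assoc, map_zsmul, hd, if_neg hij, smul_zero]
    · intro h
      exact absurd (Finset.mem_univ j) h
  have h2 := trace_eq_sum_embeddings (K := ℚ) (L := K) ℂ (x := vec K β m * β' j)
  rw [h1] at h2
  have h3 : |(m j : ℝ)| = ‖algebraMap ℚ ℂ (m j : ℚ)‖ := by
    simp
  rw [h3, h2]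
  refine le_trans (norm_sum_le _ _) ?_
  rw [Finset.sum_mul]
  refine le_trans ?_ (Finset.single_le_sum
    (f := fun j => (∑ σ : K →ₐ[ℚ] ℂ, ‖σ (β' j)‖) * B)
    (fun i _ => mul_nonneg (Finset.sum_nonneg fun _ _ => norm_nonneg _) hB0) (Finset.mem_univ j))
  rw [Finset.sum_mul]
  refine Finset.sum_le_sum fun σ _ => ?_
  rw [map_mul, norm_mul, mul_comm]
  refine mul_le_mul_of_nonneg_left ?_ (norm_nonneg _)
  have h4 := hB (InfinitePlace.mk (σ : K →+* ℂ))
  rw [InfinitePlace.apply] at h4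
  exact h4

/-- the box which contains the support -/
theorem box {ι : Type} [Fintype ι] [DecidableEq ι] (β β' : Module.Basis ι ℚ K)
    (hd : ∀ i j, Algebra.trace ℚ K (β i * β' j) = if i = j then 1 else 0) :
    ∃ C : ℝ, 0 ≤ C ∧ ∀ (a b η Y : ℝ) (m : ι → ℤ), -2 ≤ a → b ≤ 2 → 0 < η → 0 < Y →
      ph K a b η Y (vec K β m) ≠ 0 → ∀ j, |(m j : ℝ)| ≤ C * Y ^ (1 / (Module.finrank ℚ K : ℝ)) := by
  obtain ⟨C, hC, h1⟩ := coord_le K β β' hd
  obtain ⟨C₀, hC₀, h2⟩ := ph_supp K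
  refine ⟨C * Real.exp C₀, by positivity, ?_⟩
  intro a b η Y m ha hb hη hY hph j
  obtain ⟨h3, h4⟩ := h2 a b η Y _ ha hb hη hph
  rw [mul_assoc]
  refine h1 m _ (fun v => ?_) j
  have h5 := (abs_le.1 (h4 v)).2
  have hv : 0 < v (vec K β m) := (InfinitePlace.pos_iff).2 h3
  have h6 : Real.log (v (vec K β m)) ≤
      Real.log (Real.exp C₀ * Y ^ (1 / (Module.finrank ℚ K : ℝ))) := by
    rw [Real.log_mul (Real.exp_pos _).ne' (Real.rpow_pos_of_pos hY _).ne', Real.log_exp,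
      Real.log_rpow hY]
    have : 1 / (Module.finrank ℚ K : ℝ) * Real.log Y = Real.log Y / Module.finrank ℚ K := by ring
    rw [this]
    linarith
  exact (Real.log_le_log_iff hv (by positivity)).1 h6

/-- the comparison for one lattice -/
theorem cmp {ι : Type} [Fintype ι] [DecidableEq ι] (β β' : Module.Basis ι ℚ K)
    (hd : ∀ i j, Algebra.trace ℚ K (β i * β' j) = if i = j then 1 else 0) (Y₀ : ℝ) (hY₀ : 0 < Y₀) :
    ∃ C : ℝ, 0 ≤ C ∧ ∀ (a b η Y : ℝ), -2 ≤ a → b ≤ 2 → 0 < η → η ≤ 1 → Y₀ ≤ Y →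
      (Summable fun m : ι → ℤ => ph K a b η Y (vec K β m)) ∧
      |∑' m : ι → ℤ, ph K a b η (2 ^ (Module.finrank ℚ K) * Y) (vec K β m) -
        2 ^ (Module.finrank ℚ K) * ∑' m : ι → ℤ, ph K a b η Y (vec K β m)| ≤
        C * (Y / (η * Y ^ (1 / (Module.finrank ℚ K : ℝ)))) := by
  classical
  obtain ⟨R, hR, hbox⟩ := box K β β' hd
  obtain ⟨n, hnd⟩ : ∃ n : ℕ, n = Module.finrank ℚ K := ⟨_, rfl⟩
  have hn : 0 < n := by rw [hnd]; exact Module.finrank_pos
  have hcard : Fintype.card ι = n := by rw [hnd, Module.finrank_eq_card_basis β]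
  rw [← hnd] at hbox ⊢
  obtain ⟨A, hAd⟩ : ∃ A : ℝ, A = ∑ e : ι → Fin 2, ∑ v : InfinitePlace K,
    v (vec K β (fun i => ((e i : ℕ) : ℤ))) := ⟨_, rfl⟩
  have hA0 : 0 ≤ A := by
    rw [hAd]
    exact Finset.sum_nonneg fun _ _ => Finset.sum_nonneg fun _ _ => apply_nonneg _ _
  have hAe : ∀ (e : ι → Fin 2) (v : InfinitePlace K), v (vec K β (fun i => ((e i : ℕ) : ℤ))) ≤ A := by
    intro e v
    rw [hAd]
    refine le_trans (Finset.single_le_sum (f := fun v : InfinitePlace K =>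
      v (vec K β (fun i => ((e i : ℕ) : ℤ)))) (fun _ _ => apply_nonneg _ _) (Finset.mem_univ v)) ?_
    exact Finset.single_le_sum (f := fun e : ι → Fin 2 => ∑ v : InfinitePlace K,
      v (vec K β (fun i => ((e i : ℕ) : ℤ))))
      (fun _ _ => Finset.sum_nonneg fun _ _ => apply_nonneg _ _) (Finset.mem_univ e)
  obtain ⟨C, hC, hdiff⟩ := ph_diff K A hA0
  rw [← hnd] at hdiff
  obtain ⟨T₀, hT₀⟩ : ∃ T₀ : ℝ, T₀ = Y₀ ^ (1 / (n : ℝ)) := ⟨_, rfl⟩
  have hT₀0 : 0 < T₀ := by rw [hT₀]; exact Real.rpow_pos_of_pos hY₀ _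
  have hnR : (n : ℝ) ≠ 0 := by exact_mod_cast hn.ne'
  -- summability
  have hsum : ∀ (a b η Y : ℝ), -2 ≤ a → b ≤ 2 → 0 < η → 0 < Y →
      Summable fun m : ι → ℤ => ph K a b η Y (vec K β m) := by
    intro a b η Y ha hb hη hY
    obtain ⟨N, hN⟩ : ∃ N : ℤ, N = ⌊R * Y ^ (1 / (n : ℝ))⌋ := ⟨_, rfl⟩
    refine summable_of_ne_finset_zero
      (s := Fintype.piFinset fun _ : ι => Finset.Icc (-N) N) fun m hm => ?_
    by_contra hne
    apply hm
    rw [Fintype.mem_piFinset]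
    intro j
    have h1 := hbox a b η Y m ha hb hη hY hne j
    have h2 : |m j| ≤ N := by
      rw [hN, Int.le_floor]
      push_cast
      exact h1
    rw [Finset.mem_Icc]
    exact abs_le.1 h2
  refine ⟨2 ^ n * ((2 * R + 3 / T₀) ^ n * (C / 2)), by positivity, ?_⟩
  intro a b η Y ha hb hη hη1 hYY
  have hY : 0 < Y := lt_of_lt_of_le hY₀ hYY
  refine ⟨hsum a b η Y ha hb hη hY, ?_⟩
  obtain ⟨T, hT⟩ : ∃ T : ℝ, T = Y ^ (1 / (n : ℝ)) := ⟨_, rfl⟩
  have hT0 : 0 < T := by rw [hT]; exact Real.rpow_pos_of_pos hY _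
  have hTT : T₀ ≤ T := by
    rw [hT, hT₀]
    exact Real.rpow_le_rpow hY₀.le hYY (by positivity)
  have hTn : T ^ n = Y := by
    rw [hT, ← Real.rpow_natCast, ← Real.rpow_mul hY.le, one_div, inv_mul_cancel₀ hnR, Real.rpow_one]
  have hY2 : 0 < 2 ^ n * Y := by positivity
  have hT2 : (2 ^ n * Y) ^ (1 / (n : ℝ)) = 2 * T := by
    rw [Real.mul_rpow (by positivity) hY.le, ← hT, ← Real.rpow_natCast, ← Real.rpow_mul (by norm_num),
      one_div, mul_inv_cancel₀ hnR, Real.rpow_one]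
  rw [← hT]
  -- the function on the finer lattice
  obtain ⟨F, hF⟩ : ∃ F : (ι → ℤ) → ℝ, F = fun m => ph K a b η (2 ^ n * Y) (vec K β m) := ⟨_, rfl⟩
  have hFs : Summable F := by rw [hF]; exact hsum a b η _ ha hb hη hY2
  obtain ⟨N, hN⟩ : ∃ N : ℤ, N = ⌊R * T + 1⌋ := ⟨_, rfl⟩
  obtain ⟨S, hS⟩ : ∃ S : Finset (ι → ℤ), S = Fintype.piFinset fun _ : ι => Finset.Icc (-N) N :=
    ⟨_, rfl⟩
  have hN0 : 0 ≤ N := by
    rw [hN]
    exact Int.floor_nonneg.2 (by positivity)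
  have hScard : (S.card : ℝ) ≤ ((2 * R + 3 / T₀) * T) ^ n := by
    rw [hS, Fintype.card_piFinset, Finset.prod_const, Finset.card_univ, Int.card_Icc, hcard]
    push_cast
    refine pow_le_pow_left₀ (Nat.cast_nonneg _) ?_ n
    have h1 : ((N + 1 - -N).toNat : ℝ) = 2 * (N : ℝ) + 1 := by
      have : (((N + 1 - -N).toNat : ℤ) : ℝ) = ((N + 1 - -N : ℤ) : ℝ) := by
        rw [Int.toNat_of_nonneg (by omega)]
      rw [Int.cast_natCast] at this
      rw [this]
      push_cast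
      ring
    rw [h1]
    have h2 : (N : ℝ) ≤ R * T + 1 := by
      rw [hN]
      exact Int.floor_le _
    have h3 : 3 ≤ 3 / T₀ * T := by
      rw [div_mul_eq_mul_div, le_div_iff₀ hT₀0]
      nlinarith
    nlinarith
  have hmemS : ∀ (e : ι → Fin 2) (m : ι → ℤ), F (2 * m + fun i => ((e i : ℕ) : ℤ)) ≠ 0 → m ∈ S := by
    intro e m hne
    rw [hF] at hne
    rw [hS, Fintype.mem_piFinset]
    intro j
    have h1 := hbox a b η _ _ ha hb hη hY2 hne j
    rw [hT2] at h1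
    have he0 : (0 : ℝ) ≤ ((e j : ℕ) : ℝ) := Nat.cast_nonneg _
    have he1 : ((e j : ℕ) : ℝ) ≤ 1 := by
      have := (e j).2
      exact_mod_cast Nat.lt_succ_iff.1 this
    have h3 : (((2 * m + fun i => ((e i : ℕ) : ℤ)) j : ℤ) : ℝ) = 2 * (m j : ℝ) + ((e j : ℕ) : ℝ) := by
      simp
    rw [h3] at h1
    have h2 : |m j| ≤ N := by
      rw [hN, Int.le_floor]
      push_cast
      rw [abs_le] at h1 ⊢
      constructor <;> nlinarith [h1.1, h1.2]
    rw [Finset.mem_Icc]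
    exact abs_le.1 h2
  have hzero : (fun i : ι => (((0 : ι → Fin 2) i : ℕ) : ℤ)) = 0 := by
    funext i
    simp
  -- one residue class
  have hone : ∀ e : ι → Fin 2, |∑' m : ι → ℤ, F (2 * m + fun i => ((e i : ℕ) : ℤ)) -
      ∑' m : ι → ℤ, F (2 * m)| ≤ ((2 * R + 3 / T₀) * T) ^ n * (C / (η * (2 * T))) := by
    intro e
    have h1 : ∑' m : ι → ℤ, F (2 * m + fun i => ((e i : ℕ) : ℤ)) =
        ∑ m ∈ S, F (2 * m + fun i => ((e i : ℕ) : ℤ)) := by
      refine tsum_eq_sum fun m hm => ?_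
      by_contra hne
      exact hm (hmemS e m hne)
    have h2 : ∑' m : ι → ℤ, F (2 * m) = ∑ m ∈ S, F (2 * m) := by
      refine tsum_eq_sum fun m hm => ?_
      by_contra hne
      refine hm (hmemS 0 m ?_)
      rw [hzero, add_zero]
      exact hne
    rw [h1, h2, ← Finset.sum_sub_distrib]
    refine le_trans (Finset.abs_sum_le_sum_abs _ _) ?_
    have h3 : ∀ m ∈ S, |F (2 * m + fun i => ((e i : ℕ) : ℤ)) - F (2 * m)| ≤ C / (η * (2 * T)) := by
      intro m _
      rw [hF]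
      have h4 := hdiff a b η (2 ^ n * Y) (vec K β (2 * m + fun i => ((e i : ℕ) : ℤ)))
        (vec K β (2 * m)) ha hb hη hη1 hY2 (by
          intro v
          rw [vec_add, add_sub_cancel_left]
          exact hAe e v)
      rw [hT2] at h4
      exact h4
    refine le_trans (Finset.sum_le_card_nsmul _ _ _ h3) ?_
    rw [nsmul_eq_mul]
    exact mul_le_mul_of_nonneg_right hScard (by positivity)
  have hdouble : ∑' m : ι → ℤ, F (2 * m) = ∑' m : ι → ℤ, ph K a b η Y (vec K β m) := by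
    refine tsum_congr fun m => ?_
    rw [hF]
    show ph K a b η (2 ^ n * Y) (vec K β (2 * m)) = _
    rw [vec_two, hnd, ph_two K a b η Y hY]
  -- the decomposition
  have hdec : ∑' m : ι → ℤ, F m =
      ∑ e : ι → Fin 2, ∑' m : ι → ℤ, F (2 * m + fun i => ((e i : ℕ) : ℤ)) := by
    let E : (ι → ℤ) ≃ (ι → ℤ) × (ι → Fin 2) :=
      (Equiv.piCongrRight fun _ : ι => Int.divModEquiv 2).trans
        (Equiv.arrowProdEquivProdArrow ι (fun _ => ℤ) (fun _ => Fin 2))
    let E' : (ι → Fin 2) × (ι → ℤ) ≃ (ι → ℤ) := (Equiv.prodComm _ _).trans E.symm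
    have hE : ∀ p : (ι → Fin 2) × (ι → ℤ), E' p = 2 * p.2 + fun i => ((p.1 i : ℕ) : ℤ) := by
      intro p
      funext i
      show p.2 i * ((2 : ℕ) : ℤ) + ((p.1 i : ℕ) : ℤ) = 2 * p.2 i + ((p.1 i : ℕ) : ℤ)
      push_cast
      ring
    have h1 : Summable fun p : (ι → Fin 2) × (ι → ℤ) => F (E' p) := (E'.summable_iff).2 hFs
    rw [← E'.tsum_eq F, h1.tsum_prod, tsum_fintype]
    refine Finset.sum_congr rfl fun e _ => tsum_congr fun m => ?_
    rw [hE]
  have hFt : ∑' m : ι → ℤ, ph K a b η (2 ^ n * Y) (vec K β m) = ∑' m : ι → ℤ, F m := by rw [hF]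
  rw [hFt, hdec, ← hdouble]
  have hc2 : (2 : ℝ) ^ n * ∑' m : ι → ℤ, F (2 * m) = ∑ _e : ι → Fin 2, ∑' m : ι → ℤ, F (2 * m) := by
    rw [Finset.sum_const, Finset.card_univ, Fintype.card_fun, Fintype.card_fin, hcard, nsmul_eq_mul]
    push_cast
    rfl
  rw [hc2, ← Finset.sum_sub_distrib]
  refine le_trans (Finset.abs_sum_le_sum_abs _ _) ?_
  refine le_trans (Finset.sum_le_card_nsmul _ _ _ fun e _ => hone e) ?_
  rw [Finset.card_univ, Fintype.card_fun, Fintype.card_fin, hcard, nsmul_eq_mul]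
  push_cast
  rw [mul_pow, hTn]
  refine le_of_eq ?_
  field_simp

/-- the comparison for a fractional ideal -/
theorem cmpI (hLB : T_LB) (M : FI K) (hM : M ≠ 0) (Y₀ : ℝ) (hY₀ : 0 < Y₀) :
    ∃ C : ℝ, 0 ≤ C ∧ ∀ (a b η Y : ℝ), -2 ≤ a → b ≤ 2 → 0 < η → η ≤ 1 → Y₀ ≤ Y →
      ∑' x : {x : K // x ∈ M}, ENNReal.ofReal (ph K a b η Y x) ≠ ⊤ ∧
      |(∑' x : {x : K // x ∈ M},
          ENNReal.ofReal (ph K a b η (2 ^ (Module.finrank ℚ K) * Y) x)).toReal -
        2 ^ (Module.finrank ℚ K) *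
          (∑' x : {x : K // x ∈ M}, ENNReal.ofReal (ph K a b η Y x)).toReal| ≤
        C * (Y / (η * Y ^ (1 / (Module.finrank ℚ K : ℝ)))) := by
  classical
  obtain ⟨ι, _, _, β, β', hd, hmem, -, -⟩ := hLB K M hM
  obtain ⟨C, hC, h⟩ := cmp K β β' hd Y₀ hY₀
  refine ⟨C, hC, ?_⟩
  intro a b η Y ha hb hη hη1 hY
  have hYp : 0 < Y := lt_of_lt_of_le hY₀ hY
  have hY2 : Y₀ ≤ 2 ^ (Module.finrank ℚ K) * Y := by
    refine le_trans hY (le_mul_of_one_le_left hYp.le (one_le_pow₀ one_le_two))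
  let g : (ι → ℤ) → {x : K // x ∈ M} := fun m => ⟨vec K β m, (hmem _).2 ⟨m, rfl⟩⟩
  have hg : Function.Bijective g := by
    constructor
    · intro m m' hmm
      have h1 : vec K β m = vec K β m' := congrArg Subtype.val hmm
      funext j
      have h2 : ∀ m : ι → ℤ, β.repr (vec K β m) j = (m j : ℚ) := by
        intro m
        unfold vec
        rw [map_sum, Finsupp.finsetSum_apply, Finset.sum_eq_single j]
        · rw [map_zsmul, β.repr_self, Finsupp.smul_apply, Finsupp.single_eq_same, zsmul_eq_mul,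
            mul_one]
        · intro i _ hij
          rw [map_zsmul, β.repr_self, Finsupp.smul_apply, Finsupp.single_eq_of_ne' hij, smul_zero]
        · intro h'
          exact absurd (Finset.mem_univ j) h'
      have h3 := h2 m
      rw [h1, h2 m'] at h3
      exact_mod_cast h3.symm
    · rintro ⟨x, hx⟩
      obtain ⟨m, hm⟩ := (hmem x).1 hx
      exact ⟨m, Subtype.ext hm⟩
  have key : ∀ Z : ℝ, Y₀ ≤ Z → ∑' x : {x : K // x ∈ M}, ENNReal.ofReal (ph K a b η Z x) =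
      ENNReal.ofReal (∑' m : ι → ℤ, ph K a b η Z (vec K β m)) := by
    intro Z hZ
    rw [ENNReal.ofReal_tsum_of_nonneg (fun m => ph_nonneg K _ _ _ _ _)
      (h a b η Z ha hb hη hη1 hZ).1]
    rw [← (Equiv.ofBijective g hg).tsum_eq]
    rfl
  rw [key Y hY, key _ hY2, ENNReal.toReal_ofReal (tsum_nonneg fun m => ph_nonneg K _ _ _ _ _),
    ENNReal.toReal_ofReal (tsum_nonneg fun m => ph_nonneg K _ _ _ _ _)]
  exact ⟨ENNReal.ofReal_ne_top, (h a b η Y ha hb hη hη1 hY).2⟩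

end NF

end Pool.Agent.H23.NVK.IC
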