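import Pool.Agent.H89.NV.Iface
import Pool.Agent.H23.NVK.ITargets

/-!
# The two moments over the enlarged family: targets (board nvk_modules, letters M_..)
-/

set_option autoImplicit false

open MeasureTheory Set Filter NumberField NumberField.InfinitePlace
open scoped Real

namespace Pool.Agent.H23.NVK

open Pool.Agent.H31.CN (GR E lin mo Mt)
open Pool.Agent.H65.CM4 (Pl dg nm)
open Pool.Agent.H61.NVK (Vk kp c0)
open Pool.Agent.H89.NV (PrI np WW wbar wN wF dR qN RA sd)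

/-- (VCK) the cut-off function of a totally real field. -/
def T_VCK : Prop :=
  ∀ (k : Type) [Field k] [NumberField k] [IsTotallyReal k], VC (Vk k)

/-- (EQD) the definitions of the part M over a number field. -/
def T_EQD : Prop :=
  ∀ (k : Type) [Field k] [NumberField k] [IsTotallyReal k] (δ : ℝ), AxA (NP k) (kp k) δ →
    (∀ P : PrI k, np P = (NP k P : ℝ)) ∧
    (∀ S : Finset (PrI k), Pool.Agent.H89.NV.nS S = (nS (NP k) S : ℝ)) ∧
    (∀ S : Finset (PrI k), nm (Pool.Agent.H89.NV.idS S) = (nS (NP k) S : ℝ)) ∧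
    (∀ M : ℝ, Pool.Agent.H89.NV.DM k M = SM (NP k) M) ∧
    (∀ M : ℝ, Pool.Agent.H89.NV.PM k M = PM (NP k) M) ∧
    (∀ (P : Polynomial ℝ) (M : ℝ) (R m : Finset (PrI k)),
      Pool.Agent.H89.NV.cm P M R m = cm (NP k) P M R m) ∧
    (∀ R : Finset (PrI k), Pool.Agent.H89.NV.Sg k R = Sg (NP k) R) ∧
    (∀ R : Finset (PrI k), RA k R → Ad (NP k) R)

/-- (TRM) the main term for fixed discriminant in terms of the abstract main term. -/
def T_TRM : Prop :=
  ∀ (k : Type) [Field k] [NumberField k] [IsTotallyReal k] (f q : Ideal (𝓞 k)) (n : ℝ)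
    (m₁ m₂ : Finset (PrI k)) (w : WW k) (d : Pl k → ℝ), f ≠ ⊥ → (∀ v, 0 < d v) → 0 < n →
    Pool.Agent.H89.NV.Mn f q n m₁ m₂ w d =
      kp k * Mn (NP k) (Vk k) (c0 k) n m₁ m₂ (fun e A => wbar f q w (idF e) (idF A))
        (sd f d ^ 2)

/-- (SMA) the main terms for fixed discriminant, summed. -/
def T_SMA : Prop :=
  ∀ (k : Type) [Field k] [NumberField k] [IsTotallyReal k] (f : Ideal (𝓞 k))
    (R : Finset (PrI k)), f ≠ ⊥ → RA k R → ∃ N₀ : GR,
      mo 0 0 N₀ = (∏ P ∈ R, (1 - 1 / np P)) ^ 3 * (2 ^ dg k * dR R) ∧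
      ∀ (P : Polynomial ℝ) (M : ℝ) (d : Pl k → ℝ), (∀ v, 0 < d v) →
        ∑ n₁ ∈ R.powerset, ∑ n₂ ∈ R.powerset, ∑ m₁ ∈ SM (NP k) M, ∑ m₂ ∈ SM (NP k) M,
          cm (NP k) P M R m₁ * cm (NP k) P M R m₂ *
            Pool.Agent.H89.NV.Mn f (qN R) (Pool.Agent.H89.NV.nS n₁ * Pool.Agent.H89.NV.nS n₂)
              m₁ m₂ (wN f R n₁ n₂) d =
        kp k * Ph (NP k) (Vk k) (c0 k) (Real.log (sd f d))
          (N₀ * ∑ S₁ ∈ SM (NP k) M, ∑ S₂ ∈ SM (NP k) M,
            (cm (NP k) P M R S₁ * cm (NP k) P M R S₂) • ka (NP k) S₁ S₂)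

/-- (SMC) from the average of the unfolded sums to the second moment. -/
def T_SMC : Prop :=
  ∀ (k : Type) [Field k] [NumberField k] [IsTotallyReal k],
    Pool.Agent.H89.NV.T_AVG k → Pool.Agent.H89.NV.T_WDN k → Pool.Agent.H89.NV.T_UFC k →
    Pool.Agent.H89.NV.T_SM2 k

/-- (FMA) from the average of the sums over roots to the first moment. -/
def T_FMA : Prop :=
  ∀ (k : Type) [Field k] [NumberField k] [IsTotallyReal k],
    Pool.Agent.H89.NV.T_AFM k → Pool.Agent.H89.NV.T_WDN k → Pool.Agent.H89.NV.T_FMC k →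
    Pool.Agent.H89.NV.T_FM1 k

/-- (CRK) the singular constant over the primes of small norm. -/
def T_CRK : Prop :=
  ∀ (k : Type) [Field k] [NumberField k] [IsTotallyReal k], Pool.Agent.H89.NV.T_CRR k

end Pool.Agent.H23.NVK
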