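import Pool.Agent.H31.CN.T5

/-!
# The mollifier over an abstract semigroup of ideals: definitions and basic facts

`α` is the type of the primes, `N` the norm. The ideals are the elements of `α →₀ ℕ`, the squarefree
ideals are the finite sets of primes.
-/

set_option autoImplicit false

open MeasureTheory Set Filter
open scoped Real

namespace Pool.Agent.H23.NVK

open Pool.Agent.H31.CN (GR E lin mo al et Mf)

section Mon

variable {α : Type} (N : α → ℕ)

/-- the norm of a finite set of primes -/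
noncomputable def nS (S : Finset α) : ℕ := ∏ p ∈ S, N p

/-- the norm of an element of the free commutative monoid -/
noncomputable def nF (n : α →₀ ℕ) : ℕ := n.prod fun p k => N p ^ k

open Classical in
/-- the elements of norm at most `y` -/
noncomputable def FM (y : ℝ) : Finset (α →₀ ℕ) :=
  if h : {n : α →₀ ℕ | (nF N n : ℝ) ≤ y}.Finite then h.toFinset else ∅

open Classical in
/-- the finite sets of primes of norm at most `y` -/
noncomputable def SM (y : ℝ) : Finset (Finset α) :=
  if h : {S : Finset α | (nS N S : ℝ) ≤ y}.Finite then h.toFinset else ∅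

open Classical in
/-- the primes of norm at most `y` -/
noncomputable def PM (y : ℝ) : Finset α :=
  if h : {p : α | (N p : ℝ) ≤ y}.Finite then h.toFinset else ∅

/-- Axiom A: the number of the elements of norm at most `y` is `ρ y + O(y ^ (1 - δ))` -/
structure AxA (ρ δ : ℝ) : Prop where
  two : ∀ p, 2 ≤ N p
  rho : 0 < ρ
  del : 0 < δ
  del4 : δ ≤ 1 / 4
  fin : ∀ y : ℝ, {n : α →₀ ℕ | (nF N n : ℝ) ≤ y}.Finite
  cnt : ∃ C : ℝ, 0 < C ∧ ∀ y : ℝ, 1 ≤ y → |((FM N y).card : ℝ) - ρ * y| ≤ C * y ^ (1 - δ)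

/-- the element of a finite set of primes -/
noncomputable def ind (S : Finset α) : α →₀ ℕ := ∑ p ∈ S, Finsupp.single p 1

open Classical in
/-- the convolution -/
noncomputable def cv (a b : (α →₀ ℕ) → ℝ) (n : α →₀ ℕ) : ℝ :=
  ∑ x ∈ Finset.HasAntidiagonal.antidiagonal n, a x.1 * b x.2

/-- the operator of a function on the monoid -/
noncomputable def Lam (a : (α →₀ ℕ) → ℝ) (f : ℝ → ℝ) (y : ℝ) : ℝ :=
  ∑ n ∈ FM N y, a n / nF N n * f (y / nF N n)

/-- powers of the logarithm -/
noncomputable def lg (k : ℕ) (y : ℝ) : ℝ := Real.log y ^ k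

/-- all primes of norm two are in `q` -/
def Ad (q : Finset α) : Prop := ∀ p, N p = 2 → p ∈ q

end Mon

section Fun

variable {α : Type}

/-- the Möbius function -/
noncomputable def mr (n : α →₀ ℕ) : ℝ := n.prod fun _ k => if k = 1 then (-1 : ℝ) else 0

/-- the convolution square of the Möbius function -/
noncomputable def m2 (n : α →₀ ℕ) : ℝ :=
  n.prod fun _ k => if k = 1 then (-2 : ℝ) else if k = 2 then 1 else 0

open Classical in
/-- the function `h` of `q` -/
noncomputable def hq (q : Finset α) (n : α →₀ ℕ) : ℝ :=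
  n.prod fun p k => if p ∈ q then (k : ℝ) + 1 else 1 - (k : ℝ)

open Classical in
/-- `(-2) ^ (number of the primes)` on the squarefree elements prime to `q` -/
noncomputable def u2 (q : Finset α) (n : α →₀ ℕ) : ℝ :=
  n.prod fun p k => if k = 1 ∧ p ∉ q then (-2 : ℝ) else 0

end Fun

/-! ### Basic facts -/

section Basic

variable {α : Type} {N : α → ℕ}

theorem nF_zero : nF N 0 = 1 := Finsupp.prod_zero_index

theorem nF_add (a b : α →₀ ℕ) : nF N (a + b) = nF N a * nF N b := by
  classical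
  unfold nF
  exact Finsupp.prod_add_index' (fun p => pow_zero _) (fun p i j => pow_add _ _ _)

theorem nF_single (p : α) (k : ℕ) : nF N (Finsupp.single p k) = N p ^ k := by
  unfold nF
  exact Finsupp.prod_single_index (pow_zero _)

theorem nS_empty : nS N ∅ = 1 := Finset.prod_empty

open Classical in
theorem nS_union {S T : Finset α} (h : Disjoint S T) : nS N (S ∪ T) = nS N S * nS N T :=
  Finset.prod_union h

theorem nF_ind (S : Finset α) : nF N (ind S) = nS N S := by
  classical
  induction S using Finset.induction_on with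
  | empty => unfold ind; rw [Finset.sum_empty, nF_zero, nS_empty]
  | insert p S hp ih =>
    unfold ind nS
    rw [Finset.sum_insert hp, Finset.prod_insert hp, nF_add, nF_single, pow_one]
    congr 1

theorem ind_apply (S : Finset α) (p : α) [Decidable (p ∈ S)] :
    ind S p = if p ∈ S then 1 else 0 := by
  classical
  unfold ind
  rw [Finsupp.finsetSum_apply]
  simp only [Finsupp.single_apply]
  rw [Finset.sum_ite_eq']
  by_cases h : p ∈ S <;> simp [h]

theorem ind_support (S : Finset α) : (ind S).support = S := by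
  classical
  ext p
  rw [Finsupp.mem_support_iff, ind_apply]
  split_ifs with h <;> simp [h]

theorem ind_le_one (S : Finset α) (p : α) : ind S p ≤ 1 := by
  classical
  rw [ind_apply]
  split_ifs <;> omega

theorem eq_ind {n : α →₀ ℕ} (h : ∀ p, n p ≤ 1) : n = ind n.support := by
  classical
  ext p
  rw [ind_apply]
  have := h p
  by_cases h0 : n p = 0
  · rw [if_neg (by rw [Finsupp.mem_support_iff]; exact fun h' => h' h0), h0]
  · rw [if_pos (Finsupp.mem_support_iff.2 h0)]
    omega

variable {ρ δ : ℝ}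

theorem AxA.one_le_nF (h : AxA N ρ δ) (n : α →₀ ℕ) : 1 ≤ nF N n := by
  unfold nF
  exact Finset.one_le_prod' fun p _ => Nat.one_le_pow _ _ (by have := h.two p; omega)

theorem AxA.one_le_nS (h : AxA N ρ δ) (S : Finset α) : 1 ≤ nS N S := by
  rw [← nF_ind]
  exact h.one_le_nF _

theorem AxA.nF_pos (h : AxA N ρ δ) (n : α →₀ ℕ) : (0 : ℝ) < nF N n := by
  exact_mod_cast h.one_le_nF n

theorem AxA.nS_pos (h : AxA N ρ δ) (S : Finset α) : (0 : ℝ) < nS N S := by
  exact_mod_cast h.one_le_nS S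

theorem AxA.mem_FM (h : AxA N ρ δ) {y : ℝ} {n : α →₀ ℕ} :
    n ∈ FM N y ↔ (nF N n : ℝ) ≤ y := by
  unfold FM
  rw [dif_pos (h.fin y), Set.Finite.mem_toFinset]
  rfl

theorem AxA.fin_S (h : AxA N ρ δ) (y : ℝ) : {S : Finset α | (nS N S : ℝ) ≤ y}.Finite := by
  refine Set.Finite.of_finite_image (f := ind) ((h.fin y).subset ?_) ?_
  · rintro _ ⟨S, hS, rfl⟩
    show (nF N (ind S) : ℝ) ≤ y
    rw [nF_ind]
    exact hS
  · intro S _ T _ hST
    rw [← ind_support S, ← ind_support T, hST]

theorem AxA.mem_SM (h : AxA N ρ δ) {y : ℝ} {S : Finset α} :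
    S ∈ SM N y ↔ (nS N S : ℝ) ≤ y := by
  unfold SM
  rw [dif_pos (h.fin_S y), Set.Finite.mem_toFinset]
  rfl

theorem AxA.fin_P (h : AxA N ρ δ) (y : ℝ) : {p : α | (N p : ℝ) ≤ y}.Finite := by
  refine Set.Finite.of_finite_image (f := fun p => Finsupp.single p 1) ((h.fin y).subset ?_) ?_
  · rintro _ ⟨p, hp, rfl⟩
    show (nF N (Finsupp.single p 1) : ℝ) ≤ y
    rw [nF_single, pow_one]
    exact hp
  · intro p _ q _ hpq
    exact (Finsupp.single_left_inj one_ne_zero).1 hpq

theorem AxA.mem_PM (h : AxA N ρ δ) {y : ℝ} {p : α} : p ∈ PM N y ↔ (N p : ℝ) ≤ y := by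
  unfold PM
  rw [dif_pos (h.fin_P y), Set.Finite.mem_toFinset]
  rfl

open Classical in
/-- sums over finite sets of primes as sums over the monoid -/
theorem AxA.sum_SM (h : AxA N ρ δ) (y : ℝ) (F : Finset α → ℝ) :
    ∑ S ∈ SM N y, F S = ∑ n ∈ FM N y, if ∀ p, n p ≤ 1 then F n.support else 0 := by
  rw [← Finset.sum_filter]
  refine Finset.sum_bij' (fun S _ => ind S) (fun n _ => n.support) ?_ ?_ ?_ ?_ ?_
  · intro S hS
    rw [Finset.mem_filter, h.mem_FM, nF_ind]
    exact ⟨h.mem_SM.1 hS, ind_le_one S⟩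
  · intro n hn
    rw [Finset.mem_filter, h.mem_FM] at hn
    rw [h.mem_SM, ← nF_ind, ← eq_ind hn.2]
    exact hn.1
  · intro S _
    exact ind_support S
  · intro n hn
    rw [Finset.mem_filter] at hn
    exact (eq_ind hn.2).symm
  · intro S _
    rw [ind_support]

open Classical in
/-- sums over pairs -/
theorem AxA.sum_pairs (h : AxA N ρ δ) (y : ℝ) (F : (α →₀ ℕ) → (α →₀ ℕ) → ℝ) :
    ∑ n ∈ FM N y, ∑ x ∈ Finset.HasAntidiagonal.antidiagonal n, F x.1 x.2 =
      ∑ a ∈ FM N y, ∑ b ∈ FM N (y / nF N a), F a b := by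
  rw [Finset.sum_sigma', Finset.sum_sigma']
  refine Finset.sum_bij' (fun x _ => ⟨x.2.1, x.2.2⟩) (fun x _ => ⟨x.1 + x.2, (x.1, x.2)⟩)
    ?_ ?_ ?_ ?_ ?_
  · rintro ⟨n, a, b⟩ hx
    rw [Finset.mem_sigma, Finset.HasAntidiagonal.mem_antidiagonal] at hx
    obtain ⟨h1, h2⟩ := hx
    dsimp only at h1 h2
    subst h2
    rw [Finset.mem_sigma]
    dsimp only
    have ha := h.nF_pos a
    have hb := h.one_le_nF b
    have hb' : (1 : ℝ) ≤ nF N b := by exact_mod_cast hb
    rw [h.mem_FM, nF_add] at h1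
    push_cast at h1
    rw [h.mem_FM, h.mem_FM, le_div_iff₀ ha]
    constructor
    · nlinarith
    · linarith [mul_comm (nF N a : ℝ) (nF N b)]
  · rintro ⟨a, b⟩ hx
    rw [Finset.mem_sigma] at hx
    obtain ⟨h1, h2⟩ := hx
    dsimp only at h1 h2
    have ha := h.nF_pos a
    rw [Finset.mem_sigma, Finset.HasAntidiagonal.mem_antidiagonal]
    refine ⟨?_, rfl⟩
    rw [h.mem_FM, le_div_iff₀ ha] at h2
    rw [h.mem_FM, nF_add]
    push_cast
    linarith [mul_comm (nF N a : ℝ) (nF N b)]
  · rintro ⟨n, a, b⟩ hx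
    rw [Finset.mem_sigma, Finset.HasAntidiagonal.mem_antidiagonal] at hx
    obtain ⟨h1, h2⟩ := hx
    dsimp only at h2
    subst h2
    rfl
  · rintro ⟨a, b⟩ _
    rfl
  · rintro ⟨n, a, b⟩ _
    rfl

theorem AxA.Lam_Lam (h : AxA N ρ δ) (a b : (α →₀ ℕ) → ℝ) (f : ℝ → ℝ) (y : ℝ) :
    Lam N a (Lam N b f) y = Lam N (cv a b) f y := by
  classical
  have e : Lam N (cv a b) f y = ∑ n ∈ FM N y, ∑ x ∈ Finset.HasAntidiagonal.antidiagonal n,
      (a x.1 / nF N x.1 * (b x.2 / nF N x.2 * f (y / nF N x.1 / nF N x.2))) := by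
    unfold Lam cv
    refine Finset.sum_congr rfl fun n _ => ?_
    rw [Finset.sum_div, Finset.sum_mul]
    refine Finset.sum_congr (by congr) fun x hx => ?_
    rw [Finset.HasAntidiagonal.mem_antidiagonal] at hx
    rw [← hx, nF_add]
    push_cast
    rw [div_div]
    field_simp
  rw [e, h.sum_pairs y (fun u v => a u / nF N u * (b v / nF N v * f (y / nF N u / nF N v)))]
  unfold Lam
  refine Finset.sum_congr rfl fun n _ => ?_
  rw [Finset.mul_sum]

end Basic

end Pool.Agent.H23.NVK
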